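import Pool.Agent.Helper14.FFull.Quot

open Submodule IsLocalRing

namespace Pool.Agent.Helper14.FFull

universe u

section Full

variable {A : Type u} [CommRing A] {n : ℕ} (b : Fin n → A) (p : ℕ)

/-- termwise `p`-th power -/
noncomputable def powCC (z : CC b A) : CC b A :=
  fun σ => (z σ : Localization (Submonoid.powers (pr b σ))) ^ p

/-- Total fullness of the Čech complex on the subsets of `S`. -/
def TF (S : Finset (Fin n)) : Prop :=
  ∀ z : CC b A, (∀ σ ⊆ S, DD b A z σ = 0) →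
    ∃ v ∈ Submodule.span A {x : CC b A | ∃ w : CC b A, (∀ σ ⊆ S, DD b A w σ = 0) ∧ x = powCC b p w},
      ∃ u : CC b A, ∀ σ ⊆ S, z σ = v σ + DD b A u σ

theorem TF_univ_iff : TF b p Finset.univ ↔ ∀ z : CC b A, DD b A z = 0 →
    ∃ v ∈ Submodule.span A {x : CC b A | ∃ w : CC b A, DD b A w = 0 ∧ x = powCC b p w},
      ∃ u : CC b A, z = v + DD b A u := by
  have h1 : ∀ w : CC b A, (∀ σ ⊆ Finset.univ, DD b A w σ = 0) ↔ DD b A w = 0 := fun w =>
    ⟨fun h => funext fun σ => h σ (Finset.subset_univ σ), fun h σ _ => congrFun h σ⟩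
  unfold TF
  simp only [h1]
  constructor
  · intro h z hz
    obtain ⟨v, hv, u, hu⟩ := h z hz
    exact ⟨v, hv, u, funext fun σ => hu σ (Finset.subset_univ σ)⟩
  · intro h z hz
    obtain ⟨v, hv, u, hu⟩ := h z hz
    exact ⟨v, hv, u, fun σ _ => congrFun hu σ⟩

end Full

section Claims

variable {R : Type u} [CommRing R] {A : Type u} [CommRing A] (f : R →+* A) {n : ℕ} (a : Fin n → R)
  (p : ℕ) [Fact p.Prime] [CharP R p]

theorem piCC_powCC (z : CC a R) :
    piCC f a (frobCC a p z) = powCC (fun j => f (a j)) p (piCC f a z) :=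
  funext fun σ => map_pow (piLoc f a σ) _ _

theorem frobCC_smul (r : R) (z : CC a R) : frobCC a p (r • z) = r ^ p • frobCC a p z :=
  LinearMap.map_smulₛₗ _ _ _

/-- Claim I: fullness of `R/x` gives fullness of `0 :_H x`. -/
theorem kerFull_of_TF (hf : Function.Surjective f) {x : R} (hx : x ∈ nonZeroDivisors R)
    (hker : ∀ r, f r = 0 ↔ x ∣ r) (hTF : TF (fun j => f (a j)) p Finset.univ) :
    KerFull p (frobCoh a p) x := by
  have hp : p.Prime := Fact.out
  have hfx : f x = 0 := (hker x).mpr dvd_rfl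
  rw [TF_univ_iff] at hTF
  intro η hη
  obtain ⟨⟨z, hz⟩, rfl⟩ := Submodule.Quotient.mk_surjective _ η
  rw [LinearMap.mem_ker] at hz
  rw [← Submodule.Quotient.mk_smul, coh_mk_eq_zero] at hη
  obtain ⟨u, hu⟩ := hη
  replace hu : DD a R u = x • z := hu
  set Sp := Submodule.span R {z : Coh (DD a R) | ∃ h', x • h' = 0 ∧
    z = x ^ (p - 1) • frobCoh a p h'} with hSp
  obtain ⟨v, hv, w0, hw0⟩ := hTF (piCC f a u) (by
    rw [← piCC_DD, hu, piCC_smul, hfx, zero_smul])
  have key : ∀ v ∈ Submodule.span A {y : CC (fun j => f (a j)) A | ∃ w, DD (fun j => f (a j)) A w = 0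
      ∧ y = powCC (fun j => f (a j)) p w}, ∃ (v' z' : CC a R) (hz' : DD a R z' = 0),
      piCC f a v' = v ∧ DD a R v' = x • z' ∧
        (Submodule.Quotient.mk ⟨z', hz'⟩ : Coh (DD a R)) ∈ Sp := by
    intro v hv
    induction hv using Submodule.span_induction with
    | mem y hy =>
      obtain ⟨w, hw, rfl⟩ := hy
      obtain ⟨w', rfl⟩ := piCC_surjective f a hf w
      rw [← piCC_DD] at hw
      obtain ⟨z', hz'⟩ := piCC_eq_zero f a (fun r => (hker r).mp) hw
      have hz'0 : DD a R z' = 0 := by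
        apply CC_smul_eq_zero a hx
        rw [← map_smul, ← hz', DD_DD]
      refine ⟨frobCC a p w', x ^ (p - 1) • frobCC a p z', ?_, piCC_powCC f a p w', ?_, ?_⟩
      · rw [map_smul, frobCC_DD, hz'0, map_zero, smul_zero]
      · rw [frobCC_DD, hz', frobCC_smul, smul_smul, ← pow_succ', Nat.sub_add_cancel hp.pos]
      · apply Submodule.subset_span
        refine ⟨Submodule.Quotient.mk ⟨z', hz'0⟩, ?_, rfl⟩
        rw [← Submodule.Quotient.mk_smul, coh_mk_eq_zero]
        exact ⟨w', hz'⟩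
    | zero => exact ⟨0, 0, map_zero _, piCC_zero f a, by rw [map_zero, smul_zero],
        Submodule.zero_mem _⟩
    | add v1 v2 _ _ h1 h2 =>
      obtain ⟨v1', z1, hz1, e1, e1', e1''⟩ := h1
      obtain ⟨v2', z2, hz2, e2, e2', e2''⟩ := h2
      refine ⟨v1' + v2', z1 + z2, by rw [map_add, hz1, hz2, add_zero], by rw [piCC_add, e1, e2],
        by rw [map_add, e1', e2', smul_add], ?_⟩
      exact Submodule.add_mem _ e1'' e2''
    | smul r v1 _ h1 =>
      obtain ⟨v1', z1, hz1, e1, e1', e1''⟩ := h1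
      obtain ⟨r', rfl⟩ := hf r
      refine ⟨r' • v1', r' • z1, by rw [map_smul, hz1, smul_zero], by rw [piCC_smul, e1],
        by rw [map_smul, e1', smul_comm], ?_⟩
      exact Submodule.smul_mem _ r' e1''
  obtain ⟨v', z', hz', e1, e2, e3⟩ := key v hv
  obtain ⟨w1, rfl⟩ := piCC_surjective f a hf w0
  rw [← piCC_DD, ← e1, ← piCC_add] at hw0
  obtain ⟨u', hu'⟩ := piCC_eq_zero f a (fun r => (hker r).mp)
    (show piCC f a (u - (v' + DD a R w1)) = 0 by rw [piCC_sub, hw0, sub_self])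
  have h5 : DD a R u = x • (z' + DD a R u') := by
    have : u = v' + DD a R w1 + x • u' := by rw [← hu']; abel
    rw [this, map_add, map_add, DD_DD, add_zero, map_smul, e2, smul_add]
  rw [hu] at h5
  have h6 : z = z' + DD a R u' := by
    have : x • (z - (z' + DD a R u')) = 0 := by rw [smul_sub, h5, sub_self]
    exact sub_eq_zero.mp (CC_smul_eq_zero a hx this)
  have h7 : (Submodule.Quotient.mk ⟨z, hz⟩ : Coh (DD a R)) = Submodule.Quotient.mk ⟨z', hz'⟩ := by
    rw [Submodule.Quotient.eq]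
    refine ⟨u', ?_⟩
    change DD a R u' = z - z'
    exact (sub_eq_of_eq_add' h6).symm
  rw [h7]
  exact e3

/-- Claim II -/
theorem TF_of_kerFull (hf : Function.Surjective f) {y : R} (hy : y ∈ nonZeroDivisors R)
    (hker : ∀ r, f r = 0 ↔ y ∣ r) (hdiv : ∀ η : Coh (DD a R), ∃ η', y • η' = η)
    (hfull : KerFull p (frobCoh a p) y) : TF (fun j => f (a j)) p Finset.univ := by
  have hp : p.Prime := Fact.out
  have hfy : f y = 0 := (hker y).mpr dvd_rfl
  rw [TF_univ_iff]
  intro ζ hζ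
  obtain ⟨u, rfl⟩ := piCC_surjective f a hf ζ
  rw [← piCC_DD] at hζ
  obtain ⟨z, hz⟩ := piCC_eq_zero f a (fun r => (hker r).mp) hζ
  have hz0 : DD a R z = 0 := by
    apply CC_smul_eq_zero a hy
    rw [← map_smul, ← hz, DD_DD]
  have h1 := hfull (Submodule.Quotient.mk ⟨z, hz0⟩) (by
    rw [← Submodule.Quotient.mk_smul, coh_mk_eq_zero]
    exact ⟨u, hz⟩)
  set T := Submodule.span A {y : CC (fun j => f (a j)) A | ∃ w, DD (fun j => f (a j)) A w = 0
      ∧ y = powCC (fun j => f (a j)) p w} with hT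
  have key : ∀ h ∈ Submodule.span R {z : Coh (DD a R) | ∃ h', y • h' = 0 ∧
      z = y ^ (p - 1) • frobCoh a p h'}, ∃ (v' z' : CC a R) (hz' : DD a R z' = 0),
      (Submodule.Quotient.mk ⟨z', hz'⟩ : Coh (DD a R)) = h ∧ DD a R v' = y • z' ∧
      piCC f a v' ∈ T := by
    intro h hh
    induction hh using Submodule.span_induction with
    | mem h hh =>
      obtain ⟨h', hh', rfl⟩ := hh
      obtain ⟨⟨z1, hz1⟩, rfl⟩ := Submodule.Quotient.mk_surjective _ h'
      rw [LinearMap.mem_ker] at hz1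
      rw [← Submodule.Quotient.mk_smul, coh_mk_eq_zero] at hh'
      obtain ⟨w, hw⟩ := hh'
      replace hw : DD a R w = y • z1 := hw
      refine ⟨frobCC a p w, y ^ (p - 1) • frobCC a p z1, ?_, rfl, ?_, ?_⟩
      · rw [map_smul, frobCC_DD, hz1, map_zero, smul_zero]
      · rw [frobCC_DD, hw, frobCC_smul, smul_smul, ← pow_succ', Nat.sub_add_cancel hp.pos]
      · apply Submodule.subset_span
        refine ⟨piCC f a w, ?_, piCC_powCC f a p w⟩
        rw [← piCC_DD, hw, piCC_smul, hfy, zero_smul]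
    | zero => exact ⟨0, 0, map_zero _, rfl, by rw [map_zero, smul_zero], by
        rw [piCC_zero]; exact Submodule.zero_mem _⟩
    | add v1 v2 _ _ h1 h2 =>
      obtain ⟨v1', z1, hz1, e1, e1', e1''⟩ := h1
      obtain ⟨v2', z2, hz2, e2, e2', e2''⟩ := h2
      refine ⟨v1' + v2', z1 + z2, by rw [map_add, hz1, hz2, add_zero], ?_,
        by rw [map_add, e1', e2', smul_add], by rw [piCC_add]; exact Submodule.add_mem _ e1'' e2''⟩
      rw [← e1, ← e2]; rfl
    | smul r v1 _ h1 =>
      obtain ⟨v1', z1, hz1, e1, e1', e1''⟩ := h1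
      refine ⟨r • v1', r • z1, by rw [map_smul, hz1, smul_zero], ?_,
        by rw [map_smul, e1', smul_comm], by rw [piCC_smul]; exact Submodule.smul_mem _ _ e1''⟩
      rw [← e1]; rfl
  obtain ⟨v', z', hz', e1, e2, e3⟩ := key _ h1
  rw [Submodule.Quotient.eq] at e1
  obtain ⟨u', hu'⟩ := e1
  replace hu' : DD a R u' = z' - z := hu'
  -- u - v' + y u' is a cocycle
  have h2 : DD a R (u - v' + y • u') = 0 := by
    rw [map_add, map_sub, map_smul, hz, e2, hu', smul_sub]; abel
  obtain ⟨η', hη'⟩ := hdiv (Submodule.Quotient.mk ⟨u - v' + y • u', h2⟩)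
  obtain ⟨⟨q, hq⟩, rfl⟩ := Submodule.Quotient.mk_surjective _ η'
  rw [← Submodule.Quotient.mk_smul, Submodule.Quotient.eq] at hη'
  obtain ⟨q', hq'⟩ := hη'
  replace hq' : DD a R q' = y • q - (u - v' + y • u') := hq'
  refine ⟨piCC f a v', e3, piCC f a (-q'), ?_⟩
  rw [← piCC_DD, ← piCC_add, map_neg, hq']
  have h3 : v' + -(y • q - (u - v' + y • u')) = u - y • (q - u') := by rw [smul_sub]; abel
  rw [h3, piCC_sub, piCC_smul, hfy, zero_smul, sub_zero]

end Claims

end Pool.Agent.Helper14.FFull
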