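import Mathlib

/-!
# Artinian modules, divisibility and the Frobenius base change

Auxiliary commutative algebra for the `m`-adic stability of F-fullness.
-/

open Submodule Pointwise TensorProduct IsLocalRing

namespace Pool.Agent.Helper14.FFull


section Torsion

variable {R G : Type*} [CommRing R] [AddCommGroup G] [Module R G]

/-- If every element of `G` is killed by a power of `t` and the kernel of multiplication by `t`
is Artinian, then `G` is Artinian. -/
theorem isArtinian_of_torsion (t : R) (htor : ∀ g : G, ∃ k : ℕ, t ^ k • g = 0)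
    (hker : IsArtinian R (LinearMap.ker (LinearMap.lsmul R G t))) : IsArtinian R G := by
  rw [← monotone_stabilizes_iff_artinian]
  intro N
  set K := LinearMap.ker (LinearMap.lsmul R G t) with hK
  have memK : ∀ g : G, g ∈ K ↔ t • g = 0 := fun g => by simp [hK]
  -- P j s = elements `k` of `K` of the form `t^s • w` with `w ∈ N j`
  let P : ℕ → ℕ → Submodule R K := fun j s =>
    { carrier := {k | ∃ w ∈ (OrderDual.ofDual (N j) : Submodule R G), t ^ s • w = (k : G)}
      add_mem' := by
        rintro a b ⟨w, hw, hwa⟩ ⟨w', hw', hwb⟩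
        exact ⟨w + w', Submodule.add_mem _ hw hw', by simp [smul_add, hwa, hwb]⟩
      zero_mem' := ⟨0, Submodule.zero_mem _, by simp⟩
      smul_mem' := by
        rintro c a ⟨w, hw, hwa⟩
        exact ⟨c • w, Submodule.smul_mem _ _ hw, by rw [smul_comm, hwa]; rfl⟩ }
  have hN : ∀ {i j : ℕ}, i ≤ j → (OrderDual.ofDual (N j) : Submodule R G) ≤ OrderDual.ofDual (N i) :=
    fun h => N.monotone h
  have P1 : ∀ {i j : ℕ} (s : ℕ), i ≤ j → P j s ≤ P i s := by
    rintro i j s h k ⟨w, hw, hwk⟩
    exact ⟨w, hN h hw, hwk⟩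
  have P2 : ∀ (i : ℕ) {s s' : ℕ}, s ≤ s' → P i s' ≤ P i s := by
    rintro i s s' h k ⟨w, hw, hwk⟩
    refine ⟨t ^ (s' - s) • w, Submodule.smul_mem _ _ hw, ?_⟩
    rw [smul_smul, ← pow_add, Nat.add_sub_cancel' h, hwk]
  -- diagonal stabilizes
  obtain ⟨k0, hk0⟩ := monotone_stabilizes_iff_artinian.mpr hker
    ⟨fun k => OrderDual.toDual (P k k), fun a b h => (P1 b h).trans (P2 a h)⟩
  have hdiag : ∀ j s, k0 ≤ j → k0 ≤ s → P j s = P k0 k0 := by
    intro j s hj hs
    apply le_antisymm
    · exact (P1 s hj).trans (P2 k0 hs)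
    · have h1 : P k0 k0 = P (max j s) (max j s) := hk0 (max j s) (le_max_of_le_left hj)
      rw [h1]
      exact (P1 _ (le_max_left j s)).trans (P2 j (le_max_right j s))
  -- for every s the chain stabilizes
  have hs : ∀ s, ∃ n, ∀ m, n ≤ m → P n s = P m s := fun s =>
    monotone_stabilizes_iff_artinian.mpr hker ⟨fun k => OrderDual.toDual (P k s), fun a b h => P1 s h⟩
  choose f hf using hs
  obtain ⟨J, hJ⟩ : ∃ J, ∀ s, ∀ j, J ≤ j → P J s = P j s := by
    refine ⟨max k0 ((Finset.range k0).sup f), fun s j hj => ?_⟩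
    by_cases h : k0 ≤ s
    · rw [hdiag _ s (le_max_left _ _) h, hdiag j s ((le_max_left _ _).trans hj) h]
    · have hsr : s ∈ Finset.range k0 := by simpa using h
      have h1 : f s ≤ max k0 ((Finset.range k0).sup f) :=
        (Finset.le_sup (f := f) hsr).trans (le_max_right _ _)
      rw [← hf s _ h1, ← hf s _ (h1.trans hj)]
  refine ⟨J, fun j hj => ?_⟩
  change (OrderDual.ofDual (N J) : Submodule R G) = OrderDual.ofDual (N j)
  apply le_antisymm _ (hN hj)
  have key : ∀ k : ℕ, ∀ w ∈ (OrderDual.ofDual (N J) : Submodule R G), t ^ k • w = 0 →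
      w ∈ (OrderDual.ofDual (N j) : Submodule R G) := by
    intro k
    induction k with
    | zero => intro w _ h0; simp only [pow_zero, one_smul] at h0; rw [h0]; exact Submodule.zero_mem _
    | succ k ih =>
      intro w hw h0
      have hmem : (t ^ k • w) ∈ K := by rw [memK, smul_smul, ← pow_succ']; exact h0
      have h1 : (⟨t ^ k • w, hmem⟩ : K) ∈ P J k := ⟨w, hw, rfl⟩
      rw [hJ k j hj] at h1
      obtain ⟨w', hw', hww'⟩ := h1
      have h2 : w - w' ∈ (OrderDual.ofDual (N J) : Submodule R G) :=
        Submodule.sub_mem _ hw (hN hj hw')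
      have h3 : t ^ k • (w - w') = 0 := by rw [smul_sub, hww', sub_self]
      have h4 := ih _ h2 h3
      have : w = (w - w') + w' := by abel
      rw [this]
      exact Submodule.add_mem _ h4 hw'
  intro w hw
  obtain ⟨k, hk⟩ := htor w
  exact key k w hw hk

end Torsion


section BaseChange

universe v

/-- The chain `x^s H` stabilizes. -/
theorem exists_pow_smul_stable {R H : Type*} [CommRing R] [AddCommGroup H] [Module R H]
    [IsArtinian R H] (x : R) : ∃ s : ℕ, ∀ h : H, ∃ h' : H, x ^ s • h = x • (x ^ s • h') := by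
  obtain ⟨s, hs⟩ := monotone_stabilizes_iff_artinian.mpr (inferInstance : IsArtinian R H)
    ⟨fun k => OrderDual.toDual (LinearMap.range (LinearMap.lsmul R H (x ^ k))), by
      rintro a b hab _ ⟨h, rfl⟩
      refine ⟨x ^ (b - a) • h, ?_⟩
      simp only [LinearMap.lsmul_apply, smul_smul, ← pow_add]
      rw [Nat.add_sub_cancel' hab]⟩
  refine ⟨s, fun h => ?_⟩
  have h1 : LinearMap.range (LinearMap.lsmul R H (x ^ s)) =
      LinearMap.range (LinearMap.lsmul R H (x ^ (s + 1))) := hs (s + 1) (Nat.le_succ s)
  have h2 : x ^ s • h ∈ LinearMap.range (LinearMap.lsmul R H (x ^ s)) := ⟨h, rfl⟩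
  rw [h1] at h2
  obtain ⟨h', hh'⟩ := h2
  refine ⟨h', ?_⟩
  rw [← hh', smul_smul, ← pow_succ']
  rfl

variable {R R' : Type*} [CommRing R] [CommRing R'] [Algebra R R']

theorem isArtinian_baseChange {r : ℕ} (x : Fin r → R)
    (h0 : ∀ (M : Type v) [AddCommGroup M] [Module R M] [IsArtinian R M],
      (∃ t : ℕ, ∀ i, ∀ m : M, x i ^ t • m = 0) → IsArtinian R' (R' ⊗[R] M))
    (H : Type v) [AddCommGroup H] [Module R H] [IsArtinian R H]
    (htor : ∀ i, ∀ h : H, ∃ e : ℕ, x i ^ e • h = 0) : IsArtinian R' (R' ⊗[R] H) := by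
  have key : ∀ k : ℕ, ∀ (H : Type v) [AddCommGroup H] [Module R H] [IsArtinian R H],
      (∀ i, ∀ h : H, ∃ e : ℕ, x i ^ e • h = 0) →
      (∃ t : ℕ, ∀ i : Fin r, k ≤ (i : ℕ) → ∀ h : H, x i ^ t • h = 0) →
      IsArtinian R' (R' ⊗[R] H) := by
    intro k
    induction k with
    | zero =>
      intro H _ _ _ _ ⟨t, ht⟩
      exact h0 H ⟨t, fun i m => ht i (Nat.zero_le _) m⟩
    | succ k ih =>
      intro H _ _ _ htor ⟨t, ht⟩
      by_cases hk : k < r
      · set y := x ⟨k, hk⟩ with hy
        obtain ⟨s, hs⟩ := exists_pow_smul_stable (H := H) y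
        set H' : Submodule R H := LinearMap.range (LinearMap.lsmul R H (y ^ s)) with hH'
        -- quotient
        have hquot : IsArtinian R' (R' ⊗[R] (H ⧸ H')) := by
          apply ih
          · rintro i h
            obtain ⟨h, rfl⟩ := Submodule.Quotient.mk_surjective _ h
            obtain ⟨e, he⟩ := htor i h
            exact ⟨e, by rw [← Submodule.Quotient.mk_smul, he, Submodule.Quotient.mk_zero]⟩
          · refine ⟨max s t, fun i hi h => ?_⟩
            obtain ⟨h, rfl⟩ := Submodule.Quotient.mk_surjective _ h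
            rw [← Submodule.Quotient.mk_smul, Submodule.Quotient.mk_eq_zero]
            rcases Nat.lt_or_ge k i with hki | hki
            · have : x i ^ (max s t) • h = 0 := by
                rw [← Nat.sub_add_cancel (le_max_right s t), pow_add, mul_smul, ht i hki h, smul_zero]
              rw [this]; exact Submodule.zero_mem _
            · have hik : (i : ℕ) = k := le_antisymm hki hi
              have hxi : x i = y := by rw [hy]; congr; exact Fin.ext hik
              rw [hxi, ← Nat.sub_add_cancel (le_max_left s t), pow_add, mul_smul]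
              exact Submodule.smul_mem _ _ ⟨h, rfl⟩
        -- kernel of y on H'
        set f : H' →ₗ[R] H' := LinearMap.lsmul R H' y with hf
        have hfsurj : Function.Surjective f := by
          rintro ⟨_, ⟨h, rfl⟩⟩
          obtain ⟨h', hh'⟩ := hs h
          exact ⟨⟨y ^ s • h', ⟨h', rfl⟩⟩, Subtype.ext hh'.symm⟩
        have hker : IsArtinian R' (R' ⊗[R] (LinearMap.ker f)) := by
          apply ih
          · rintro i ⟨⟨h, hh⟩, hh2⟩
            obtain ⟨e, he⟩ := htor i h
            exact ⟨e, Subtype.ext (Subtype.ext he)⟩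
          · refine ⟨t + 1, fun i hi h => ?_⟩
            obtain ⟨⟨h, hh⟩, hh2⟩ := h
            apply Subtype.ext; apply Subtype.ext
            change x i ^ (t + 1) • h = 0
            rcases Nat.lt_or_ge k i with hki | hki
            · rw [pow_succ', mul_smul, ht i hki h, smul_zero]
            · have hik : (i : ℕ) = k := le_antisymm hki hi
              have hxi : x i = y := by rw [hy]; congr; exact Fin.ext hik
              have h3 : y • h = 0 := by
                have := congrArg Subtype.val (LinearMap.mem_ker.mp hh2)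
                exact this
              rw [hxi, pow_succ, mul_smul, h3, smul_zero]
        have hexact : Function.Exact (LinearMap.ker f).subtype f := by
          intro z
          constructor
          · intro hz; exact ⟨⟨z, hz⟩, rfl⟩
          · rintro ⟨w, rfl⟩; exact w.2
        have hex2 := lTensor_exact R' hexact hfsurj
        -- multiplication by algebraMap y on R' ⊗ H'
        have hmul : ∀ g : R' ⊗[R] H', f.lTensor R' g = (algebraMap R R' y) • g := by
          intro g
          induction g with
          | zero => simp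
          | add a b ha hb => rw [map_add, ha, hb, smul_add]
          | tmul a b =>
            rw [LinearMap.lTensor_tmul, hf, LinearMap.lsmul_apply, TensorProduct.tmul_smul,
              algebraMap_smul]
        have hH'art : IsArtinian R' (R' ⊗[R] H') := by
          apply isArtinian_of_torsion (algebraMap R R' y)
          · intro g
            have : ∀ g : R' ⊗[R] H', ∃ k : ℕ, y ^ k • g = 0 := by
              intro g
              induction g with
              | zero => exact ⟨0, by simp⟩
              | add a b ha hb =>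
                obtain ⟨k1, h1⟩ := ha
                obtain ⟨k2, h2⟩ := hb
                refine ⟨k1 + k2, ?_⟩
                rw [smul_add, pow_add, mul_comm, mul_smul, h1, smul_zero, mul_comm, mul_smul, h2,
                  smul_zero, add_zero]
              | tmul a b =>
                obtain ⟨e, he⟩ := htor ⟨k, hk⟩ (b : H)
                refine ⟨e, ?_⟩
                rw [← TensorProduct.tmul_smul]
                have : y ^ e • b = 0 := Subtype.ext he
                rw [this, TensorProduct.tmul_zero]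
            obtain ⟨k, hk⟩ := this g
            refine ⟨k, ?_⟩
            rw [← map_pow, algebraMap_smul, hk]
          · -- the kernel is a quotient of R' ⊗ ker f
            let φ : R' ⊗[R] (LinearMap.ker f) →ₗ[R'] R' ⊗[R] H' :=
              LinearMap.baseChange R' (LinearMap.ker f).subtype
            have hφ : LinearMap.range φ =
                LinearMap.ker (LinearMap.lsmul R' (R' ⊗[R] H') (algebraMap R R' y)) := by
              ext g
              rw [LinearMap.mem_ker, LinearMap.lsmul_apply, ← hmul g, hex2 g]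
              rfl
            rw [← hφ]
            exact isArtinian_of_surjective _ φ.rangeRestrict φ.surjective_rangeRestrict
        -- conclude
        have hex3 : Function.Exact (H'.subtype) (H'.mkQ) := LinearMap.exact_subtype_mkQ H'
        have hex4 := lTensor_exact R' hex3 (Submodule.mkQ_surjective H')
        exact isArtinian_of_range_eq_ker (LinearMap.baseChange R' H'.subtype)
          (LinearMap.baseChange R' H'.mkQ) (by
            ext g
            rw [LinearMap.mem_ker]
            exact (hex4 g).symm)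
      · apply ih H htor
        refine ⟨t, fun i hi h => ?_⟩
        exact absurd (lt_of_le_of_lt hi i.2) hk
  exact key r H htor ⟨0, fun i hi => absurd i.2 (not_lt.mpr hi)⟩

end BaseChange


section TorsionLocal

variable {R M : Type*} [CommRing R] [AddCommGroup M] [Module R M]

theorem exists_pow_smul_eq_zero [IsLocalRing R] [IsArtinian R M] {x : R}
    (hx : x ∈ maximalIdeal R) (h : M) : ∃ e : ℕ, x ^ e • h = 0 := by
  obtain ⟨s, hs⟩ := exists_pow_smul_stable (H := Submodule.span R {h}) x
  obtain ⟨⟨h', hh'⟩, hs'⟩ := hs ⟨h, Submodule.mem_span_singleton_self h⟩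
  have h1 : x ^ s • h = x • (x ^ s • h') := congrArg Subtype.val hs'
  obtain ⟨r, rfl⟩ := Submodule.mem_span_singleton.mp hh'
  refine ⟨s, ?_⟩
  have hu : IsUnit (1 - x * r) := by
    by_contra hcon
    have h2 : (1 - x * r) ∈ maximalIdeal R := hcon
    have h3 : (1 : R) ∈ maximalIdeal R := by
      have := Ideal.add_mem _ h2 (Ideal.mul_mem_right r _ hx)
      simpa using this
    exact (Ideal.ne_top_iff_one _).mp (maximalIdeal.isMaximal R).ne_top h3
  have h4 : (1 - x * r) • (x ^ s • h) = 0 := by
    rw [sub_smul, one_smul, sub_eq_zero]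
    nth_rewrite 1 [h1]
    simp only [smul_smul]
    congr 1
    ring
  obtain ⟨u, hu⟩ := hu
  rw [← hu] at h4
  have := congrArg (fun z => (↑u⁻¹ : R) • z) h4
  simpa [smul_smul] using this


end TorsionLocal


section FiniteLength

variable {R M : Type*} [CommRing R] [AddCommGroup M] [Module R M]

theorem finite_of_isArtinian_of_smul_eq_zero (I : Ideal R) [IsArtinianRing (R ⧸ I)]
    [IsArtinian R M] (h : ∀ r ∈ I, ∀ m : M, r • m = 0) : Module.Finite R M := by
  have ht : Module.IsTorsionBySet R M I := fun m r => h r r.2 m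
  let := ht.module
  have : IsScalarTower R (R ⧸ I) M := ht.isScalarTower
  have : IsArtinian (R ⧸ I) M := isArtinian_of_tower R inferInstance
  have : IsNoetherian (R ⧸ I) M := IsSemiprimaryRing.isNoetherian_iff_isArtinian.mpr inferInstance
  exact Module.Finite.trans (R ⧸ I) M

theorem isArtinian_of_finite_of_smul_eq_zero (I : Ideal R) [IsArtinianRing (R ⧸ I)]
    [Module.Finite R M] (h : ∀ r ∈ I, ∀ m : M, r • m = 0) : IsArtinian R M := by
  have ht : Module.IsTorsionBySet R M I := fun m r => h r r.2 m
  let := ht.module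
  have : IsScalarTower R (R ⧸ I) M := ht.isScalarTower
  have : Module.Finite (R ⧸ I) M := Module.Finite.of_restrictScalars_finite R _ _
  have : IsArtinian (R ⧸ I) M := inferInstance
  exact isArtinian_of_surjective_algebraMap (R := R ⧸ I) (S := R) Ideal.Quotient.mk_surjective

theorem isArtinianRing_quotient_of_radical_eq [IsNoetherianRing R] [IsLocalRing R] (I : Ideal R)
    (hI : I.radical = maximalIdeal R) : IsArtinianRing (R ⧸ I) := by
  apply IsLocalRing.quotient_artinian_of_mem_minimalPrimes_of_isLocalRing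
  refine ⟨⟨inferInstance, hI ▸ Ideal.le_radical⟩, ?_⟩
  rintro J ⟨hJ, hIJ⟩ hJm
  rw [← hI]
  exact hJ.radical_le_iff.mpr hIJ

end FiniteLength


section Frob

/-- The ring `R`, to be regarded as an `R`-algebra through the `p`-th power Frobenius map. -/
def FrobRing (_p : ℕ) (R : Type*) : Type _ := R

variable (p : ℕ) (R : Type*) [CommRing R]

noncomputable instance : CommRing (FrobRing p R) := inferInstanceAs (CommRing R)

instance [IsNoetherianRing R] : IsNoetherianRing (FrobRing p R) :=
  inferInstanceAs (IsNoetherianRing R)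

instance [IsLocalRing R] : IsLocalRing (FrobRing p R) := inferInstanceAs (IsLocalRing R)

/-- the identity `R → FrobRing p R`-/
def toFrob : R ≃+* FrobRing p R := RingEquiv.refl R

variable [ExpChar R p]

noncomputable instance : Algebra R (FrobRing p R) :=
  ((toFrob p R : R →+* FrobRing p R).comp (frobenius R p)).toAlgebra

theorem algebraMap_frob (r : R) : algebraMap R (FrobRing p R) r = toFrob p R (r ^ p) := rfl

variable [IsNoetherianRing R] [IsLocalRing R] (H : Type*) [AddCommGroup H] [Module R H]
  [IsArtinian R H]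

theorem isArtinian_frob : IsArtinian (FrobRing p R) (FrobRing p R ⊗[R] H) := by
  obtain ⟨r, x, hx⟩ := Submodule.fg_iff_exists_fin_generating_family.mp
    (IsNoetherian.noetherian (maximalIdeal R))
  have hxm : ∀ i, x i ∈ maximalIdeal R := fun i => hx ▸ Submodule.subset_span ⟨i, rfl⟩
  apply isArtinian_baseChange x
  · rintro M _ _ _ ⟨t, ht⟩
    have hI : ∀ s : ℕ, (Ideal.span (Set.range fun i => x i ^ (s + 1))).radical =
        maximalIdeal R := by
      intro s
      apply le_antisymm
      · apply (maximalIdeal.isMaximal R).isPrime.radical_le_iff.mpr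
        rw [Ideal.span_le]
        rintro _ ⟨i, rfl⟩
        exact Ideal.pow_mem_of_mem _ (hxm i) _ (Nat.succ_pos s)
      · rw [← hx, Submodule.span_le]
        rintro _ ⟨i, rfl⟩
        exact ⟨s + 1, Ideal.subset_span ⟨i, rfl⟩⟩
    have := isArtinianRing_quotient_of_radical_eq _ (hI t)
    have : Module.Finite R M := by
      apply finite_of_isArtinian_of_smul_eq_zero (Ideal.span (Set.range fun i => x i ^ (t + 1)))
      intro r hr m
      induction hr using Submodule.span_induction with
      | mem y hy =>
        obtain ⟨i, rfl⟩ := hy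
        simp only [pow_succ', mul_smul, ht, smul_zero]
      | zero => simp
      | add a b _ _ ha hb => rw [add_smul, ha, hb, add_zero]
      | smul a b _ hb => rw [smul_eq_mul, mul_smul, hb, smul_zero]
    have hp : 0 < p := expChar_pos R p
    have h4 : IsArtinianRing (FrobRing p R ⧸
        (Ideal.span (Set.range fun i => (toFrob p R (x i)) ^ (p * t + 1)) :
          Ideal (FrobRing p R))) := by
      exact isArtinianRing_quotient_of_radical_eq (R := R) _ (hI (p * t))
    apply isArtinian_of_finite_of_smul_eq_zero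
      (Ideal.span (Set.range fun i => (toFrob p R (x i)) ^ (p * t + 1)) : Ideal (FrobRing p R))
    intro r hr z
    induction hr using Submodule.span_induction with
    | mem y hy =>
      obtain ⟨i, rfl⟩ := hy
      have h5 : (toFrob p R (x i)) ^ (p * t + 1) =
          (toFrob p R (x i)) * algebraMap R (FrobRing p R) (x i ^ t) := by
        rw [algebraMap_frob, pow_succ', ← pow_mul, mul_comm t p, map_pow]
      simp only [h5]
      rw [mul_smul, algebraMap_smul]
      have h6 : (x i ^ t) • z = 0 := by
        induction z with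
        | zero => simp
        | add a b ha hb => rw [smul_add, ha, hb, add_zero]
        | tmul a b => rw [← TensorProduct.tmul_smul, ht, TensorProduct.tmul_zero]
      rw [h6, smul_zero]
    | zero => simp
    | add a b _ _ ha hb => rw [add_smul, ha, hb, add_zero]
    | smul a b _ hb => rw [smul_eq_mul, mul_smul, hb, smul_zero]
  · intro i h
    exact exists_pow_smul_eq_zero (hxm i) h

end Frob



section Stable

variable {R : Type*} [CommRing R] [IsNoetherianRing R] [IsLocalRing R]

/-- Krull: if `x ∉ P` then `x + δ ∉ P` for all `δ` in a high power of the maximal ideal. -/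
theorem exists_pow_forall_add_notMem (P : Ideal R) {x : R} (hx : x ∉ P) :
    ∃ N : ℕ, ∀ δ ∈ maximalIdeal R ^ N, x + δ ∉ P := by
  have h1 := Ideal.iInf_pow_smul_eq_bot_of_isLocalRing (M := R ⧸ P) (maximalIdeal R)
    (maximalIdeal.isMaximal R).ne_top
  have h2 : (Ideal.Quotient.mk P x) ∉ (⨅ i : ℕ, maximalIdeal R ^ i • ⊤ : Submodule R (R ⧸ P)) := by
    rw [h1, Submodule.mem_bot]
    intro h
    exact hx (Ideal.Quotient.eq_zero_iff_mem.mp h)
  rw [Submodule.mem_iInf] at h2
  push Not at h2
  obtain ⟨N, hN⟩ := h2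
  refine ⟨N, fun δ hδ hmem => hN ?_⟩
  have h3 : Ideal.Quotient.mk P x = (-δ) • (1 : R ⧸ P) := by
    have : x = (x + δ) + -δ := by ring
    rw [this, map_add, Ideal.Quotient.eq_zero_iff_mem.mpr hmem, zero_add]
    rw [Algebra.smul_def, mul_one]
    rfl
  rw [h3]
  exact Submodule.smul_mem_smul (Ideal.neg_mem_iff _ |>.mpr hδ) trivial

variable {H : Type*} [AddCommGroup H] [Module R H]

/-- `M` is divisible by `x`. -/
def Divis (x : R) (M : Submodule R H) : Prop := ∀ m ∈ M, ∃ m' ∈ M, x • m' = m

theorem exists_stable_divis_aux [IsArtinian R H] (x : R) (M : Submodule R H) (hM : Divis x M) :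
    ∃ N : ℕ, ∀ δ ∈ maximalIdeal R ^ N, Divis (x + δ) M := by
  induction M using WellFoundedLT.induction with
  | ind M ih =>
  by_cases hcase : ∃ r : R, (¬ ∃ n : ℕ, ∀ m ∈ M, r ^ n • m = 0) ∧ ¬ Divis r M
  · obtain ⟨r, hr1, hr2⟩ := hcase
    -- stable image of r
    obtain ⟨n, hpos, hn⟩ : ∃ n : ℕ, 0 < n ∧ ∀ m ∈ M, ∃ m' ∈ M, r ^ n • m = r ^ n • r ^ n • m' := by
      obtain ⟨s, hs⟩ := monotone_stabilizes_iff_artinian.mpr (inferInstance : IsArtinian R M)
        ⟨fun k => OrderDual.toDual (LinearMap.range (LinearMap.lsmul R M (r ^ k))), by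
          rintro a b hab _ ⟨h, rfl⟩
          refine ⟨r ^ (b - a) • h, ?_⟩
          simp only [LinearMap.lsmul_apply, smul_smul, ← pow_add]
          rw [Nat.add_sub_cancel' hab]⟩
      refine ⟨s + 1, Nat.succ_pos s, fun m hm => ?_⟩
      have h1 : LinearMap.range (LinearMap.lsmul R M (r ^ (s + 1))) =
        LinearMap.range (LinearMap.lsmul R M (r ^ ((s + 1) + (s + 1)))) :=
        (hs (s + 1) (Nat.le_succ s)).symm.trans (hs (s + 1 + (s + 1)) (by omega))
      have h2 : r ^ (s + 1) • (⟨m, hm⟩ : M) ∈ LinearMap.range (LinearMap.lsmul R M (r ^ (s + 1))) :=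
        ⟨_, rfl⟩
      rw [h1] at h2
      obtain ⟨⟨h', hh'⟩, hh2⟩ := h2
      refine ⟨h', hh', ?_⟩
      have := congrArg Subtype.val hh2
      rw [pow_add r (s + 1) (s + 1)] at this
      simp only [LinearMap.lsmul_apply, mul_smul] at this
      exact this.symm
    obtain ⟨k, hk⟩ : ∃ k : ℕ, ∀ m ∈ M, r ^ n • m = 0 → ∃ m' ∈ M, r ^ n • m' = 0 ∧
        x ^ k • m = x • (x ^ k • m') := by
      let K : Submodule R H := M ⊓ LinearMap.ker (LinearMap.lsmul R H (r ^ n))
      obtain ⟨s, hs⟩ := monotone_stabilizes_iff_artinian.mpr (inferInstance : IsArtinian R K)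
        ⟨fun k => OrderDual.toDual (LinearMap.range (LinearMap.lsmul R K (x ^ k))), by
          rintro a b hab _ ⟨h, rfl⟩
          refine ⟨x ^ (b - a) • h, ?_⟩
          simp only [LinearMap.lsmul_apply, smul_smul, ← pow_add]
          rw [Nat.add_sub_cancel' hab]⟩
      refine ⟨s, fun m hm hm0 => ?_⟩
      have h1 : LinearMap.range (LinearMap.lsmul R K (x ^ s)) =
        LinearMap.range (LinearMap.lsmul R K (x ^ (s + 1))) := hs (s + 1) (Nat.le_succ s)
      have h2 : x ^ s • (⟨m, hm, hm0⟩ : K) ∈ LinearMap.range (LinearMap.lsmul R K (x ^ s)) :=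
        ⟨_, rfl⟩
      rw [h1] at h2
      obtain ⟨⟨h', hh', hh''⟩, hh2⟩ := h2
      refine ⟨h', hh', hh'', ?_⟩
      have := congrArg Subtype.val hh2
      simp only [LinearMap.lsmul_apply, pow_succ', mul_smul] at this
      exact this.symm
    -- the two submodules
    let M2 : Submodule R H := M.map (LinearMap.lsmul R H (r ^ n))
    let M1 : Submodule R H :=
      (M ⊓ LinearMap.ker (LinearMap.lsmul R H (r ^ n))).map (LinearMap.lsmul R H (x ^ k))
    have hM2le : M2 ≤ M := by
      rintro _ ⟨m, hm, rfl⟩
      exact Submodule.smul_mem _ _ hm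
    have hM1le : M1 ≤ M := by
      rintro _ ⟨m, hm, rfl⟩
      exact Submodule.smul_mem _ _ hm.1
    have hM2div : Divis x M2 := by
      rintro _ ⟨m, hm, rfl⟩
      obtain ⟨m', hm', rfl⟩ := hM m hm
      exact ⟨r ^ n • m', ⟨m', hm', rfl⟩, smul_comm _ _ _⟩
    have hM1div : Divis x M1 := by
      rintro _ ⟨m, hm, rfl⟩
      obtain ⟨m', hm', hm'', h⟩ := hk m hm.1 hm.2
      exact ⟨x ^ k • m', ⟨m', ⟨hm', hm''⟩, rfl⟩, h.symm⟩
    have hM2lt : M2 < M := by
      refine lt_of_le_of_ne hM2le fun heq => hr2 ?_
      intro m hm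
      rw [← heq] at hm
      obtain ⟨m', hm', rfl⟩ := hm
      obtain ⟨m'', hm'', h⟩ := hn m' hm'
      refine ⟨r ^ (n - 1) • r ^ n • m'', Submodule.smul_mem _ _ (Submodule.smul_mem _ _ hm''), ?_⟩
      simp only [LinearMap.lsmul_apply]
      rw [h, smul_smul, ← pow_succ', Nat.sub_add_cancel hpos]
    have hM1lt : M1 < M := by
      refine lt_of_le_of_ne hM1le fun heq => hr1 ⟨n, fun m hm => ?_⟩
      rw [← heq] at hm
      obtain ⟨m', hm', rfl⟩ := hm
      have : r ^ n • m' = 0 := hm'.2
      simp only [LinearMap.lsmul_apply]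
      rw [smul_comm, this, smul_zero]
    obtain ⟨N1, hN1⟩ := ih M1 hM1lt hM1div
    obtain ⟨N2, hN2⟩ := ih M2 hM2lt hM2div
    refine ⟨max N1 N2, fun δ hδ m hm => ?_⟩
    have hδ1 : δ ∈ maximalIdeal R ^ N1 := Ideal.pow_le_pow_right (le_max_left _ _) hδ
    have hδ2 : δ ∈ maximalIdeal R ^ N2 := Ideal.pow_le_pow_right (le_max_right _ _) hδ
    -- m = x^k m0
    have hxk : ∀ k : ℕ, ∀ m ∈ M, ∃ m' ∈ M, x ^ k • m' = m := by
      intro k
      induction k with
      | zero => intro m hm; exact ⟨m, hm, by simp⟩
      | succ k ihk =>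
        intro m hm
        obtain ⟨m', hm', rfl⟩ := ihk m hm
        obtain ⟨m'', hm'', rfl⟩ := hM m' hm'
        exact ⟨m'', hm'', by rw [pow_succ, mul_smul]⟩
    obtain ⟨m0, hm0, rfl⟩ := hxk k m hm
    obtain ⟨m1, hm1, h1⟩ := hn m0 hm0
    have h2 : x ^ k • (m0 - r ^ n • m1) ∈ M1 := by
      refine ⟨m0 - r ^ n • m1, ⟨Submodule.sub_mem _ hm0 (Submodule.smul_mem _ _ hm1), ?_⟩, rfl⟩
      simp only [SetLike.mem_coe, LinearMap.mem_ker, LinearMap.lsmul_apply]
      rw [smul_sub, h1, sub_self]
    have h3 : x ^ k • r ^ n • m1 ∈ M2 :=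
      ⟨x ^ k • m1, Submodule.smul_mem _ _ hm1, smul_comm _ _ _⟩
    obtain ⟨a, ha, ha'⟩ := hN1 δ hδ1 _ h2
    obtain ⟨b, hb, hb'⟩ := hN2 δ hδ2 _ h3
    refine ⟨a + b, Submodule.add_mem _ (hM1le ha) (hM2le hb), ?_⟩
    rw [smul_add, ha', hb', smul_sub]
    abel
  · push Not at hcase
    -- every r is nilpotent or surjective on M
    by_cases hM0 : M = ⊥
    · refine ⟨0, fun δ _ m hm => ⟨0, Submodule.zero_mem _, ?_⟩⟩
      rw [hM0, Submodule.mem_bot] at hm
      rw [hm, smul_zero]
    · let P : Ideal R :=
        { carrier := {r | ∃ n : ℕ, ∀ m ∈ M, r ^ n • m = 0}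
          zero_mem' := ⟨1, fun m _ => by simp⟩
          add_mem' := by
            rintro a b ⟨n1, h1⟩ ⟨n2, h2⟩
            refine ⟨n1 + n2, fun m hm => ?_⟩
            rw [add_pow, Finset.sum_smul]
            apply Finset.sum_eq_zero
            intro i hi
            rcases Nat.lt_or_ge i n1 with hlt | hge
            · have h3 : n2 ≤ n1 + n2 - i := by omega
              have : b ^ (n1 + n2 - i) • m = 0 := by
                rw [← Nat.sub_add_cancel h3, pow_add, mul_smul, h2 m hm, smul_zero]
              rw [mul_right_comm, mul_smul, this, smul_zero]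
            · have : a ^ i • m = 0 := by
                rw [← Nat.sub_add_cancel hge, pow_add, mul_smul, h1 m hm, smul_zero]
              rw [mul_comm, mul_smul, mul_comm, mul_smul, this, smul_zero, smul_zero]
          smul_mem' := by
            rintro c a ⟨n, h⟩
            refine ⟨n, fun m hm => ?_⟩
            rw [smul_eq_mul, mul_pow, mul_smul, h m hm, smul_zero] }
      have hxP : x ∉ P := by
        rintro ⟨n, h⟩
        apply hM0
        rw [eq_bot_iff]
        have hxk : ∀ k : ℕ, ∀ m ∈ M, ∃ m' ∈ M, x ^ k • m' = m := by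
          intro k
          induction k with
          | zero => intro m hm; exact ⟨m, hm, by simp⟩
          | succ k ihk =>
            intro m hm
            obtain ⟨m', hm', rfl⟩ := ihk m hm
            obtain ⟨m'', hm'', rfl⟩ := hM m' hm'
            exact ⟨m'', hm'', by rw [pow_succ, mul_smul]⟩
        intro m hm
        obtain ⟨m', hm', rfl⟩ := hxk n m hm
        rw [h m' hm']
        exact Submodule.zero_mem _
      obtain ⟨N, hN⟩ := exists_pow_forall_add_notMem P hxP
      refine ⟨N, fun δ hδ => ?_⟩
      by_contra hnd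
      have h5 : (x + δ) ∉ P := hN δ hδ
      exact hnd (hcase (x + δ) (fun n => by
        by_contra h
        push Not at h
        exact h5 ⟨n, h⟩))

end Stable

section Main

variable {R : Type*} [CommRing R] {H : Type*} [AddCommGroup H] [Module R H]

/-- The submodule `0 :_H y` with the action `y^(p-1) F` is full. -/
def KerFull (p : ℕ) (F : H → H) (y : R) : Prop :=
  ∀ h : H, y • h = 0 → h ∈ Submodule.span R {z | ∃ h' : H, y • h' = 0 ∧ z = y ^ (p - 1) • F h'}

theorem divisible_of_kerFull {p : ℕ} (hp : p.Prime) (F : H →+ H)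
    (hF : ∀ (r : R) (h : H), F (r • h) = r ^ p • F h) {x : R}
    (htor : ∀ h : H, ∃ e : ℕ, x ^ e • h = 0) (hfull : KerFull p F x) (h : H) :
    ∃ h', x • h' = h := by
  have h1 : ∀ k : ℕ, ∀ a : H, x • a = 0 → ∃ b, x ^ k • b = a := by
    intro k
    induction k with
    | zero => intro a _; exact ⟨a, by simp⟩
    | succ k ih =>
      intro a ha
      have hle : Submodule.span R {z | ∃ h' : H, x • h' = 0 ∧ z = x ^ (p - 1) • F h'} ≤
          LinearMap.range (LinearMap.lsmul R H (x ^ (k + 1))) := by
        rw [Submodule.span_le]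
        rintro _ ⟨h', hh', rfl⟩
        obtain ⟨b, rfl⟩ := ih h' hh'
        rw [hF]
        refine ⟨x ^ ((p - 1) + k * p - (k + 1)) • F b, ?_⟩
        simp only [LinearMap.lsmul_apply]
        rw [smul_smul, smul_smul, ← pow_mul, ← pow_add, ← pow_add]
        congr 2
        have h2 := hp.two_le
        have : k ≤ k * p := Nat.le_mul_of_pos_right k hp.pos
        omega
      exact hle (hfull a ha)
  have h2 : ∀ e : ℕ, ∀ h : H, x ^ e • h = 0 → ∃ h', x • h' = h := by
    intro e
    induction e with
    | zero => intro h h0; exact ⟨0, by simpa using h0.symm⟩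
    | succ e ih =>
      intro h h0
      obtain ⟨b, hb⟩ := h1 (e + 1) (x ^ e • h) (by rw [smul_smul, ← pow_succ']; exact h0)
      obtain ⟨h', hh'⟩ := ih (h - x • b) (by
        rw [smul_sub, smul_smul, ← pow_succ, hb, sub_self])
      exact ⟨h' + b, by rw [smul_add, hh']; abel⟩
  obtain ⟨e, he⟩ := htor h
  exact h2 e h he

/-- if `0 :_H x` is full then `H` is full. -/
theorem full_of_kerFull {p : ℕ} (hp : p.Prime) (F : H →+ H)
    (hF : ∀ (r : R) (h : H), F (r • h) = r ^ p • F h) {x : R}
    (htor : ∀ h : H, ∃ e : ℕ, x ^ e • h = 0) (hfull : KerFull p F x) (h : H) :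
    h ∈ Submodule.span R (Set.range F) := by
  have hdiv := divisible_of_kerFull hp F hF htor hfull
  have hdivk : ∀ k : ℕ, ∀ h : H, ∃ h', x ^ k • h' = h := by
    intro k
    induction k with
    | zero => intro h; exact ⟨h, by simp⟩
    | succ k ih =>
      intro h
      obtain ⟨a, rfl⟩ := hdiv h
      obtain ⟨b, rfl⟩ := ih a
      exact ⟨b, by rw [pow_succ', mul_smul]⟩
  have h2 : ∀ e : ℕ, ∀ h : H, x ^ e • h = 0 → h ∈ Submodule.span R (Set.range F) := by
    intro e
    induction e with
    | zero => intro h h0; have : h = 0 := by simpa using h0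
              rw [this]; exact Submodule.zero_mem _
    | succ e ih =>
      intro h h0
      have h3 := hfull (x ^ e • h) (by rw [smul_smul, ← pow_succ']; exact h0)
      have hle : Submodule.span R {z | ∃ h' : H, x • h' = 0 ∧ z = x ^ (p - 1) • F h'} ≤
          (Submodule.span R (Set.range F)).map (LinearMap.lsmul R H (x ^ e)) := by
        rw [Submodule.span_le]
        rintro _ ⟨h', _, rfl⟩
        obtain ⟨b, rfl⟩ := hdivk e h'
        refine ⟨x ^ ((e + 1) * (p - 1)) • F b, Submodule.smul_mem _ _
          (Submodule.subset_span ⟨b, rfl⟩), ?_⟩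
        simp only [LinearMap.lsmul_apply]
        rw [hF, smul_smul, smul_smul, ← pow_mul, ← pow_add, ← pow_add]
        congr 2
        obtain ⟨q, rfl⟩ : ∃ q, p = q + 1 := ⟨p - 1, (Nat.sub_add_cancel hp.pos).symm⟩
        simp only [Nat.add_sub_cancel]
        ring
      obtain ⟨g, hg, hg2⟩ := hle h3
      simp only [LinearMap.lsmul_apply] at hg2
      have h4 := ih (h - g) (by rw [smul_sub, hg2, sub_self])
      have : h = (h - g) + g := by abel
      rw [this]
      exact Submodule.add_mem _ h4 hg
  obtain ⟨e, he⟩ := htor h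
  exact h2 e h he

variable (p : ℕ) [ExpChar R p]

/-- The linearization of Frobenius. -/
noncomputable def theta (F : H →+ H) (hF : ∀ (r : R) (h : H), F (r • h) = r ^ p • F h) :
    FrobRing p R ⊗[R] H →+ H :=
  TensorProduct.liftAddHom
    { toFun := fun s =>
        { toFun := fun h => (toFrob p R).symm s • F h
          map_zero' := by simp
          map_add' := by intro a b; rw [map_add, smul_add] }
      map_zero' := by ext h; simp
      map_add' := by intro a b; ext h; simp [add_smul] }
    (by
      intro r s h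
      change (toFrob p R).symm (r • s) • F h = (toFrob p R).symm s • F (r • h)
      rw [hF, smul_smul, Algebra.smul_def, algebraMap_frob, map_mul, mul_comm]
      simp)

theorem theta_tmul (F : H →+ H) (hF : ∀ (r : R) (h : H), F (r • h) = r ^ p • F h)
    (s : FrobRing p R) (h : H) : theta p F hF (s ⊗ₜ h) = (toFrob p R).symm s • F h := rfl

theorem theta_smul (F : H →+ H) (hF : ∀ (r : R) (h : H), F (r • h) = r ^ p • F h)
    (r : R) (g : FrobRing p R ⊗[R] H) :
    theta p F hF (toFrob p R r • g) = r • theta p F hF g := by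
  induction g with
  | zero => simp
  | add a b ha hb => rw [smul_add, map_add, ha, hb, map_add, smul_add]
  | tmul s h =>
    rw [TensorProduct.smul_tmul', theta_tmul, theta_tmul, smul_eq_mul, map_mul, mul_smul]
    simp

theorem stable_kerFull [IsNoetherianRing R] [IsLocalRing R] [IsArtinian R H]
    (hp : p.Prime) (F : H →+ H)
    (hF : ∀ (r : R) (h : H), F (r • h) = r ^ p • F h) {x : R} (hx : x ∈ maximalIdeal R)
    (hfull : KerFull p F x) :
    ∃ N : ℕ, ∀ δ ∈ maximalIdeal R ^ N, (∀ h : H, ∃ h', (x + δ) • h' = h) ∧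
      KerFull p F (x + δ) := by
  have htor : ∀ h : H, ∃ e : ℕ, x ^ e • h = 0 := fun h => exists_pow_smul_eq_zero hx h
  have hdiv := divisible_of_kerFull hp F hF htor hfull
  have hsurj := full_of_kerFull hp F hF htor hfull
  -- stable divisibility of H
  obtain ⟨N1, hN1⟩ := exists_stable_divis_aux (H := H) x ⊤ (fun m _ => by
    obtain ⟨m', hm'⟩ := hdiv m; exact ⟨m', trivial, hm'⟩)
  set R' := FrobRing p R with hR'
  set G := FrobRing p R ⊗[R] H with hG
  have hGart : IsArtinian R' G := isArtinian_frob p R H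
  let C : Submodule R' G :=
    { carrier := {g | theta p F hF g = 0}
      zero_mem' := by simp
      add_mem' := by
        intro a b ha hb
        simp only [Set.mem_ofPred_eq] at ha hb ⊢
        rw [map_add, ha, hb, add_zero]
      smul_mem' := by
        intro c a ha
        simp only [Set.mem_ofPred_eq] at ha ⊢
        obtain ⟨c, rfl⟩ := (toFrob p R).surjective c
        rw [theta_smul, ha, smul_zero] }
  have memC : ∀ g, g ∈ C ↔ theta p F hF g = 0 := fun g => Iff.rfl
  -- for any y with yH = H : G is divisible by y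
  have hGdiv : ∀ y : R, (∀ h : H, ∃ h', y • h' = h) → ∀ g : G, ∃ g' : G,
      toFrob p R y • g' = g := by
    intro y hy g
    have : ∃ g' : G, toFrob p R (y ^ p) • g' = g := by
      induction g using TensorProduct.induction_on with
      | zero => exact ⟨0, by simp⟩
      | add a b ha hb =>
        obtain ⟨a', ha'⟩ := ha
        obtain ⟨b', hb'⟩ := hb
        exact ⟨a' + b', by rw [smul_add, ha', hb']⟩
      | tmul s h =>
        obtain ⟨h', rfl⟩ := hy h
        refine ⟨s ⊗ₜ h', ?_⟩
        rw [← algebraMap_frob, algebraMap_smul, TensorProduct.tmul_smul]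
    obtain ⟨g', hg'⟩ := this
    refine ⟨toFrob p R (y ^ (p - 1)) • g', ?_⟩
    rw [smul_smul, ← map_mul, ← pow_succ', Nat.sub_add_cancel hp.pos, hg']
  -- C is divisible by x
  have hCdiv : Divis (toFrob p R x) C := by
    intro c hc
    obtain ⟨g, rfl⟩ := hGdiv x hdiv c
    rw [memC, theta_smul] at hc
    have h1 := hfull _ hc
    have h2 : ∃ g' : G, toFrob p R x • g' = 0 ∧ theta p F hF g' = theta p F hF g := by
      have hle : ∀ z ∈ Submodule.span R {z | ∃ h' : H, x • h' = 0 ∧ z = x ^ (p - 1) • F h'},
          ∃ g' : G, toFrob p R x • g' = 0 ∧ theta p F hF g' = z := by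
        intro z hz
        induction hz using Submodule.span_induction with
        | mem y hy =>
          obtain ⟨h', hh', rfl⟩ := hy
          refine ⟨toFrob p R (x ^ (p - 1)) ⊗ₜ h', ?_, ?_⟩
          · rw [TensorProduct.smul_tmul', smul_eq_mul, ← map_mul, ← pow_succ',
              Nat.sub_add_cancel hp.pos]
            have : toFrob p R (x ^ p) = x • (1 : FrobRing p R) := by
              rw [Algebra.smul_def, mul_one, algebraMap_frob]
            rw [this, TensorProduct.smul_tmul, hh', TensorProduct.tmul_zero]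
          · rw [theta_tmul]; simp
        | zero => exact ⟨0, by simp, by simp⟩
        | add a b _ _ ha hb =>
          obtain ⟨a', ha', ha''⟩ := ha
          obtain ⟨b', hb', hb''⟩ := hb
          exact ⟨a' + b', by rw [smul_add, ha', hb', add_zero], by rw [map_add, ha'', hb'']⟩
        | smul r b _ hb =>
          obtain ⟨b', hb', hb''⟩ := hb
          exact ⟨toFrob p R r • b', by rw [smul_comm, hb', smul_zero], by rw [theta_smul, hb'']⟩
      exact hle _ h1
    obtain ⟨g', hg', hg''⟩ := h2
    refine ⟨g - g', ?_, by rw [smul_sub, hg', sub_zero]⟩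
    rw [memC, map_sub, hg'', sub_self]
  obtain ⟨N2, hN2⟩ := exists_stable_divis_aux (R := R') (H := G) (toFrob p R x) C hCdiv
  refine ⟨max N1 N2, fun δ hδ => ?_⟩
  have hδ1 : δ ∈ maximalIdeal R ^ N1 := Ideal.pow_le_pow_right (le_max_left _ _) hδ
  have hδ2 : δ ∈ maximalIdeal R ^ N2 := Ideal.pow_le_pow_right (le_max_right _ _) hδ
  have hdivy : ∀ h : H, ∃ h', (x + δ) • h' = h := fun h => by
    obtain ⟨h', _, hh'⟩ := hN1 δ hδ1 h trivial
    exact ⟨h', hh'⟩
  have hCy : Divis (toFrob p R (x + δ)) C := by
    have := hN2 (toFrob p R δ) hδ2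
    rwa [← map_add] at this
  refine ⟨hdivy, ?_⟩
  set y := x + δ with hy
  intro h hh
  -- h = theta g
  have hth : ∀ h : H, ∃ g : G, theta p F hF g = h := by
    intro h
    have := hsurj h
    induction this using Submodule.span_induction with
    | mem z hz => obtain ⟨w, rfl⟩ := hz; exact ⟨1 ⊗ₜ w, by rw [theta_tmul]; simp⟩
    | zero => exact ⟨0, by simp⟩
    | add a b _ _ ha hb =>
      obtain ⟨a', ha'⟩ := ha
      obtain ⟨b', hb'⟩ := hb
      exact ⟨a' + b', by rw [map_add, ha', hb']⟩
    | smul r b _ hb =>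
      obtain ⟨b', hb'⟩ := hb
      exact ⟨toFrob p R r • b', by rw [theta_smul, hb']⟩
  obtain ⟨g, hg⟩ := hth h
  have hyg : toFrob p R y • g ∈ C := by rw [memC, theta_smul, hg, hh]
  obtain ⟨c, hc, hcy⟩ := hCy _ hyg
  obtain ⟨g0, hg0, hg0'⟩ : ∃ g0 : G, toFrob p R y • g0 = 0 ∧ theta p F hF g0 = h := by
    refine ⟨g - c, by rw [smul_sub, hcy, sub_self], ?_⟩
    rw [map_sub, hg, (memC c).mp hc, sub_zero]
  -- g0 = y^(p-1) g1
  have hGdivk : ∀ k : ℕ, ∀ g : G, ∃ g', toFrob p R (y ^ k) • g' = g := by
    intro k
    induction k with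
    | zero => intro g; exact ⟨g, by simp⟩
    | succ k ih =>
      intro g
      obtain ⟨a, rfl⟩ := hGdiv y hdivy g
      obtain ⟨b, rfl⟩ := ih a
      exact ⟨b, by rw [pow_succ', map_mul, mul_smul]⟩
  obtain ⟨g1, hg1⟩ := hGdivk (p - 1) g0
  have hg1' : toFrob p R (y ^ p) • g1 = 0 := by
    have : y ^ p = y * y ^ (p - 1) := by rw [← pow_succ', Nat.sub_add_cancel hp.pos]
    rw [this, map_mul, mul_smul, hg1, hg0]
  -- right exactness
  let f : H →ₗ[R] H := LinearMap.lsmul R H y
  have hexact : Function.Exact (LinearMap.ker f).subtype f := by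
    intro z
    constructor
    · intro hz; exact ⟨⟨z, hz⟩, rfl⟩
    · rintro ⟨w, rfl⟩; exact w.2
  have hfs : Function.Surjective f := hdivy
  have hex2 := lTensor_exact (FrobRing p R) hexact hfs
  have hmul : ∀ g : G, f.lTensor (FrobRing p R) g = toFrob p R (y ^ p) • g := by
    intro g
    rw [← algebraMap_frob, algebraMap_smul]
    induction g using TensorProduct.induction_on with
    | zero => simp
    | add a b ha hb => rw [map_add, ha, hb, smul_add]
    | tmul a b =>
      rw [LinearMap.lTensor_tmul, LinearMap.lsmul_apply, TensorProduct.tmul_smul]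
  rw [← hmul, hex2] at hg1'
  obtain ⟨w, hw⟩ := hg1'
  have key : ∀ w : FrobRing p R ⊗[R] (LinearMap.ker f),
      y ^ (p - 1) • theta p F hF ((LinearMap.ker f).subtype.lTensor (FrobRing p R) w) ∈
      Submodule.span R {z | ∃ h' : H, y • h' = 0 ∧ z = y ^ (p - 1) • F h'} := by
    intro w
    induction w with
    | zero => simp
    | add a b ha hb => rw [map_add, map_add, smul_add]; exact Submodule.add_mem _ ha hb
    | tmul a b =>
      rw [LinearMap.lTensor_tmul, theta_tmul, smul_comm]
      exact Submodule.smul_mem _ _ (Submodule.subset_span ⟨b, b.2, rfl⟩)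
  have := key w
  rwa [hw, ← theta_smul, hg1, hg0'] at this

end Main


end Pool.Agent.Helper14.FFull
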