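import Pool.Agent.Helper14.FFull.Homotopy

open Submodule IsLocalRing

namespace Pool.Agent.Helper14.FFull

universe u

section Functor

variable {R : Type u} [CommRing R] {n : ℕ} (a : Fin n → R)
  {M N P : Type*} [AddCommGroup M] [Module R M] [AddCommGroup N] [Module R N]
  [AddCommGroup P] [Module R P]

/-- functoriality of Čech cochains -/
noncomputable def CCmap (f : M →ₗ[R] N) : CC a M →ₗ[R] CC a N :=
  LinearMap.pi fun σ => (locMap (pr a σ) f) ∘ₗ (LinearMap.proj σ)

theorem CCmap_apply (f : M →ₗ[R] N) (z : CC a M) (σ : Finset (Fin n)) :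
    CCmap a f z σ = locMap (pr a σ) f (z σ) := rfl

theorem CCmap_DD (f : M →ₗ[R] N) (z : CC a M) : CCmap a f (DD a M z) = DD a N (CCmap a f z) := by
  funext σ
  rw [CCmap_apply, DD_apply, DD_apply, map_sum]
  refine Finset.sum_congr rfl fun j _ => ?_
  rw [map_smul, locMap_mres]
  rfl

theorem CCmap_injective (f : M →ₗ[R] N) (hf : Function.Injective f) :
    Function.Injective (CCmap a f) := by
  intro z w h
  funext σ
  exact locMap_injective _ f hf (congrFun h σ)

theorem CCmap_surjective (f : M →ₗ[R] N) (hf : Function.Surjective f) :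
    Function.Surjective (CCmap a f) := by
  intro z
  choose w hw using fun σ => locMap_surjective (pr a σ) f hf (z σ)
  exact ⟨w, funext hw⟩

theorem CCmap_exact (f : M →ₗ[R] N) (g : N →ₗ[R] P) (h : Function.Exact f g) :
    Function.Exact (CCmap a f) (CCmap a g) := by
  intro z
  constructor
  · intro hz
    have : ∀ σ, ∃ w, locMap (pr a σ) f w = z σ := fun σ =>
      (locMap_exact (pr a σ) f g h (z σ)).mp (congrFun hz σ)
    choose w hw using this
    exact ⟨w, funext hw⟩
  · rintro ⟨w, rfl⟩
    funext σ
    exact (locMap_exact (pr a σ) f g h).apply_apply_eq_zero (w σ)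

theorem CCmap_lsmul (x : R) (z : CC a M) : CCmap a (LinearMap.lsmul R M x) z = x • z := by
  funext σ
  rw [CCmap_apply, Pi.smul_apply]
  have : locMap (pr a σ) (LinearMap.lsmul R M x) = LinearMap.lsmul R (Loc (pr a σ) M) x := by
    apply IsLocalizedModule.ext (Submonoid.powers (pr a σ)) (toLoc (pr a σ) M)
      (isUnit_of_dvd (dvd_refl _))
    ext m
    simp only [LinearMap.comp_apply]
    rw [locMap_toLoc]
    simp
  rw [this]
  rfl

/-- cohomology classes are torsion -/
theorem coh_torsion_gen (j : Fin n) (η : Coh (DD a M)) : ∃ t : ℕ, a j ^ t • η = 0 := by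
  obtain ⟨⟨z, hz⟩, rfl⟩ := Submodule.Quotient.mk_surjective _ η
  obtain ⟨t, u, _, hu⟩ := homotopy a z Finset.univ j (Finset.mem_univ _)
    (fun σ _ => by rw [LinearMap.mem_ker.mp hz]; rfl)
  refine ⟨t, ?_⟩
  rw [← Submodule.Quotient.mk_smul, coh_mk_eq_zero]
  exact ⟨u, funext fun σ => hu σ (Finset.subset_univ σ)⟩

theorem coh_torsion {x : R} (hx : x ∈ (Ideal.span (Set.range a)).radical) (η : Coh (DD a M)) :
    ∃ t : ℕ, x ^ t • η = 0 := by
  let J : Ideal R := LinearMap.ker (LinearMap.toSpanSingleton R _ η)
  have memJ : ∀ r, r ∈ J ↔ r • η = 0 := fun r => Iff.rfl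
  have h1 : Ideal.span (Set.range a) ≤ J.radical := by
    rw [Ideal.span_le]
    rintro _ ⟨j, rfl⟩
    obtain ⟨t, ht⟩ := coh_torsion_gen a j η
    exact ⟨t, (memJ _).mpr ht⟩
  have h2 : x ∈ J.radical := by
    have := Ideal.radical_mono h1 hx
    rwa [Ideal.radical_idem] at this
  obtain ⟨t, ht⟩ := h2
  exact ⟨t, (memJ _).mp ht⟩

variable {R : Type u} [CommRing R] [IsNoetherianRing R] [IsLocalRing R] (a : Fin n → R)

theorem isArtinian_coh_quotient (ha : (Ideal.span (Set.range a)).radical = maximalIdeal R)
    (I : Ideal R) : IsArtinian R (Coh (DD a (R ⧸ I))) := by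
  have haj : ∀ j, a j ∈ maximalIdeal R := fun j =>
    ha ▸ Ideal.le_radical (Ideal.subset_span ⟨j, rfl⟩)
  induction I using WellFoundedGT.induction with
  | ind I ih =>
  by_cases hex : ∃ b c : R, b ∉ I ∧ c ∉ I ∧ b * c ∈ I
  · obtain ⟨b, c, hb, hc, hbc⟩ := hex
    -- dévissage
    let J1 : Ideal R := I.colon {b}
    have memJ1 : ∀ r, r ∈ J1 ↔ r * b ∈ I := fun r => by
      simp only [J1]
      rw [Submodule.mem_colon_singleton]
      rfl
    have hJ1 : I < J1 := by
      refine lt_of_le_of_ne (fun r hr => (memJ1 r).mpr (I.mul_mem_right b hr)) fun h => hc ?_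
      rw [h, memJ1, mul_comm]; exact hbc
    have hJ2 : I < I ⊔ Ideal.span {b} := by
      refine lt_of_le_of_ne le_sup_left fun h => hb ?_
      rw [h]; exact Ideal.mem_sup_right (Ideal.mem_span_singleton_self b)
    have := ih J1 hJ1
    have := ih _ hJ2
    let f : (R ⧸ J1) →ₗ[R] (R ⧸ I) := J1.liftQ ((Submodule.mkQ I) ∘ₗ (LinearMap.lsmul R R b)) (by
      intro r hr
      rw [memJ1] at hr
      rw [LinearMap.mem_ker]
      simp only [LinearMap.comp_apply, LinearMap.lsmul_apply, Submodule.mkQ_apply]
      rw [Submodule.Quotient.mk_eq_zero, smul_eq_mul, mul_comm]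
      exact hr)
    let g : (R ⧸ I) →ₗ[R] (R ⧸ (I ⊔ Ideal.span {b})) := Submodule.factor le_sup_left
    apply isArtinian_coh_mid (CCmap a f) (CCmap a g) (CCmap_DD a f) (CCmap_DD a g) (DD_DD a)
      (CCmap_injective a f ?_) (CCmap_exact a f g ?_) (CCmap_surjective a g ?_)
    · rw [injective_iff_map_eq_zero]
      intro z hz
      obtain ⟨r, rfl⟩ := Submodule.Quotient.mk_surjective _ z
      rw [Submodule.Quotient.mk_eq_zero, memJ1, mul_comm]
      exact (Submodule.Quotient.mk_eq_zero I).mp hz
    · intro z
      obtain ⟨r, rfl⟩ := Submodule.Quotient.mk_surjective _ z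
      have h1 : g (Submodule.Quotient.mk r) = Submodule.Quotient.mk r := rfl
      rw [h1, Submodule.Quotient.mk_eq_zero, Submodule.mem_sup]
      constructor
      · rintro ⟨i, hi, s, hs, rfl⟩
        obtain ⟨q, rfl⟩ := Ideal.mem_span_singleton'.mp hs
        refine ⟨Submodule.Quotient.mk q, ?_⟩
        have h2 : f (Submodule.Quotient.mk q) = Submodule.Quotient.mk (b * q) := rfl
        rw [h2, Submodule.Quotient.eq]
        have : b * q - (i + q * b) = -i := by ring
        rw [this]; exact I.neg_mem hi
      · rintro ⟨w, hw⟩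
        obtain ⟨q, rfl⟩ := Submodule.Quotient.mk_surjective _ w
        have h2 : f (Submodule.Quotient.mk q) = Submodule.Quotient.mk (b * q) := rfl
        rw [h2, Submodule.Quotient.eq] at hw
        refine ⟨r - b * q, ?_, b * q, Ideal.mul_mem_right _ _ (Ideal.mem_span_singleton_self b), by ring⟩
        have := I.neg_mem hw
        rwa [neg_sub] at this
    · exact Submodule.factor_surjective _
  push Not at hex
  by_cases hI : maximalIdeal R ≤ I
  · -- base case: the complex itself is Artinian
    have hfin : ∀ σ : Finset (Fin n), IsArtinian R (Loc (pr a σ) (R ⧸ I)) := by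
      intro σ
      rcases σ.eq_empty_or_nonempty with rfl | ⟨j, hj⟩
      · have h1 : Function.Surjective (toLoc (pr a ∅) (R ⧸ I)) := by
          intro z
          obtain ⟨k, m, hm⟩ := exists_toLoc z
          have h2 : (pr a ∅) ^ k = 1 := by simp [pr]
          rw [h2, one_smul] at hm
          exact ⟨m, hm.symm⟩
        have h3 : IsArtinian R (R ⧸ I) := by
          rcases eq_or_ne I ⊤ with rfl | hne
          · have : Subsingleton (R ⧸ (⊤ : Ideal R)) := Submodule.Quotient.subsingleton_iff.mpr rfl
            infer_instance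
          · have : I = maximalIdeal R := le_antisymm (le_maximalIdeal hne) hI
            rw [this]
            have h4 : IsArtinianRing (R ⧸ maximalIdeal R) := by
              let := Ideal.Quotient.field (maximalIdeal R)
              infer_instance
            exact isArtinian_of_surjective_algebraMap (R := R ⧸ maximalIdeal R) (S := R)
              Ideal.Quotient.mk_surjective
        exact isArtinian_of_surjective _ _ h1
      · have hmem : pr a σ ∈ I := hI (by
          simp only [pr]
          rw [← Finset.mul_prod_erase σ a hj]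
          exact Ideal.mul_mem_right _ _ (haj j))
        have : Subsingleton (Loc (pr a σ) (R ⧸ I)) := by
          refine ⟨fun z w => ?_⟩
          have h5 : ∀ z : Loc (pr a σ) (R ⧸ I), z = 0 := by
            intro z
            obtain ⟨k, m, hm⟩ := exists_toLoc z
            apply smul_cancel (dvd_refl _) k
            rw [hm, smul_zero, toLoc_eq_zero]
            refine ⟨1, ?_⟩
            obtain ⟨r, rfl⟩ := Submodule.Quotient.mk_surjective _ m
            rw [pow_one, ← Submodule.Quotient.mk_smul, Submodule.Quotient.mk_eq_zero]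
            exact I.mul_mem_right _ hmem
          rw [h5 z, h5 w]
        infer_instance
    have h6 : IsArtinian R (CC a (R ⧸ I)) := inferInstance
    infer_instance
  · -- prime case
    rw [SetLike.not_le_iff_exists] at hI
    obtain ⟨x, hx, hxI⟩ := hI
    have hJ2 : I < I ⊔ Ideal.span {x} := by
      refine lt_of_le_of_ne le_sup_left fun h => hxI ?_
      rw [h]; exact Ideal.mem_sup_right (Ideal.mem_span_singleton_self x)
    have := ih _ hJ2
    let g : (R ⧸ I) →ₗ[R] (R ⧸ (I ⊔ Ideal.span {x})) := Submodule.factor le_sup_left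
    have hker := isArtinian_ker_cohMap (CCmap a (LinearMap.lsmul R (R ⧸ I) x)) (CCmap a g)
      (CCmap_DD a _) (CCmap_DD a g) (DD_DD a) (CCmap_injective a _ (by
        rw [injective_iff_map_eq_zero]
        intro z hz
        obtain ⟨r, rfl⟩ := Submodule.Quotient.mk_surjective _ z
        rw [LinearMap.lsmul_apply, ← Submodule.Quotient.mk_smul, Submodule.Quotient.mk_eq_zero,
          smul_eq_mul] at hz
        rw [Submodule.Quotient.mk_eq_zero]
        by_contra hr
        exact hex x r hxI hr hz)) (CCmap_exact a _ g (by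
          intro z
          obtain ⟨r, rfl⟩ := Submodule.Quotient.mk_surjective _ z
          have h1 : g (Submodule.Quotient.mk r) = Submodule.Quotient.mk r := rfl
          rw [h1, Submodule.Quotient.mk_eq_zero, Submodule.mem_sup]
          constructor
          · rintro ⟨i, hi, s, hs, rfl⟩
            obtain ⟨q, rfl⟩ := Ideal.mem_span_singleton'.mp hs
            refine ⟨Submodule.Quotient.mk q, ?_⟩
            rw [LinearMap.lsmul_apply, ← Submodule.Quotient.mk_smul, Submodule.Quotient.eq,
              smul_eq_mul]
            have : x * q - (i + q * x) = -i := by ring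
            rw [this]; exact I.neg_mem hi
          · rintro ⟨w, hw⟩
            obtain ⟨q, rfl⟩ := Submodule.Quotient.mk_surjective _ w
            rw [LinearMap.lsmul_apply, ← Submodule.Quotient.mk_smul, Submodule.Quotient.eq,
              smul_eq_mul] at hw
            refine ⟨r - x * q, ?_, x * q, Ideal.mul_mem_right _ _ (Ideal.mem_span_singleton_self x),
              by ring⟩
            have := I.neg_mem hw
            rwa [neg_sub] at this)) (CCmap_surjective a g (Submodule.factor_surjective _))
    apply isArtinian_of_torsion x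
    · intro η
      exact coh_torsion a (ha ▸ hx) η
    · have hle : cohMap (CCmap a (LinearMap.lsmul R (R ⧸ I) x)) (CCmap_DD a _) =
          LinearMap.lsmul R (Coh (DD a (R ⧸ I))) x := by
        refine LinearMap.ext fun η => ?_
        obtain ⟨⟨z, hz⟩, rfl⟩ := Submodule.Quotient.mk_surjective _ η
        rw [LinearMap.lsmul_apply, ← Submodule.Quotient.mk_smul]
        change (Submodule.Quotient.mk (⟨CCmap a (LinearMap.lsmul R (R ⧸ I) x) z, _⟩ :
          LinearMap.ker (DD a (R ⧸ I))) : Coh (DD a (R ⧸ I))) = _
        congr 1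
        exact Subtype.ext (CCmap_lsmul a x z)
      rw [← hle]
      exact hker

end Functor

end Pool.Agent.Helper14.FFull
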