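import Pool.Agent.Helper14.FFull.Complex
import Pool.Agent.Helper14.FFull.Artin

open Submodule

namespace Pool.Agent.Helper14.FFull

universe u

section Coh

variable {R : Type u} [CommRing R]

theorem isArtinian_of_relation {E X Y : Type*} [AddCommGroup E] [Module R E] [AddCommGroup X]
    [Module R X] [AddCommGroup Y] [Module R Y] [IsArtinian R X] (e1 : E →ₗ[R] X) (e2 : E →ₗ[R] Y)
    (h : LinearMap.ker e1 ≤ LinearMap.ker e2) (hs : Function.Surjective e2) : IsArtinian R Y := by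
  let f : LinearMap.range e1 →ₗ[R] Y :=
    ((LinearMap.ker e1).liftQ e2 h) ∘ₗ (e1.quotKerEquivRange.symm : _ →ₗ[R] _)
  apply isArtinian_of_surjective _ f
  intro y
  obtain ⟨e, rfl⟩ := hs y
  refine ⟨⟨e1 e, ⟨e, rfl⟩⟩, ?_⟩
  simp only [f, LinearMap.comp_apply, LinearEquiv.coe_coe]
  have : e1.quotKerEquivRange.symm ⟨e1 e, ⟨e, rfl⟩⟩ = Submodule.Quotient.mk e := by
    rw [LinearEquiv.symm_apply_eq]
    rfl
  rw [this]
  exact Submodule.liftQ_apply _ _ _

/-- The cohomology `ker d / im d` of a module with a differential. -/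
abbrev Coh {C : Type*} [AddCommGroup C] [Module R C] (d : C →ₗ[R] C) : Type _ :=
  (LinearMap.ker d) ⧸ ((LinearMap.range d).comap (LinearMap.ker d).subtype)

variable {C1 C2 C3 : Type*} [AddCommGroup C1] [Module R C1] [AddCommGroup C2] [Module R C2]
  [AddCommGroup C3] [Module R C3] {d1 : C1 →ₗ[R] C1} {d2 : C2 →ₗ[R] C2} {d3 : C3 →ₗ[R] C3}

/-- induced map on cohomology -/
def cohMap (f : C1 →ₗ[R] C2) (hf : ∀ z, f (d1 z) = d2 (f z)) : Coh d1 →ₗ[R] Coh d2 :=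
  Submodule.mapQ _ _ (f.restrict (p := LinearMap.ker d1) (q := LinearMap.ker d2) (by
    intro z hz
    rw [LinearMap.mem_ker] at hz ⊢
    rw [← hf, hz, map_zero])) (by
    rintro ⟨z, hz⟩ ⟨w, hw⟩
    exact ⟨f w, by rw [← hf, hw]; rfl⟩)

theorem cohMap_mk (f : C1 →ₗ[R] C2) (hf : ∀ z, f (d1 z) = d2 (f z)) (z : LinearMap.ker d1)
    (hz : f z ∈ LinearMap.ker d2) :
    cohMap f hf (Submodule.Quotient.mk z) = Submodule.Quotient.mk ⟨f z, hz⟩ := rfl

theorem coh_mk_eq_zero (z : LinearMap.ker d1) :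
    (Submodule.Quotient.mk z : Coh d1) = 0 ↔ ∃ u, d1 u = z := by
  rw [Submodule.Quotient.mk_eq_zero]
  rfl

theorem isArtinian_coh_mid (f : C1 →ₗ[R] C2) (g : C2 →ₗ[R] C3)
    (hf : ∀ z, f (d1 z) = d2 (f z)) (hg : ∀ z, g (d2 z) = d3 (g z))
    (hd2 : ∀ z, d2 (d2 z) = 0)
    (hfi : Function.Injective f) (hex : Function.Exact f g) (hgs : Function.Surjective g)
    [IsArtinian R (Coh d1)] [IsArtinian R (Coh d3)] : IsArtinian R (Coh d2) := by
  apply isArtinian_of_range_eq_ker (cohMap f hf) (cohMap g hg)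
  ext η
  obtain ⟨⟨z, hz⟩, rfl⟩ := Submodule.Quotient.mk_surjective _ η
  rw [LinearMap.mem_ker]
  constructor
  · rintro ⟨η', hη'⟩
    rw [← hη']
    obtain ⟨⟨z', hz'⟩, rfl⟩ := Submodule.Quotient.mk_surjective _ η'
    have : cohMap g hg (cohMap f hf (Submodule.Quotient.mk ⟨z', hz'⟩)) =
      Submodule.Quotient.mk ⟨g (f z'), by
        rw [LinearMap.mem_ker, ← hg, ← hf, LinearMap.mem_ker.mp hz', map_zero, map_zero]⟩ := rfl
    rw [this, coh_mk_eq_zero]
    exact ⟨0, by rw [map_zero]; exact (hex.apply_apply_eq_zero z').symm⟩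
  · intro h
    have h1 : cohMap g hg (Submodule.Quotient.mk ⟨z, hz⟩) = Submodule.Quotient.mk ⟨g z, by
        rw [LinearMap.mem_ker, ← hg, LinearMap.mem_ker.mp hz, map_zero]⟩ := rfl
    rw [h1, coh_mk_eq_zero] at h
    obtain ⟨v, hv⟩ := h
    obtain ⟨w, rfl⟩ := hgs v
    have h2 : g (z - d2 w) = 0 := by rw [map_sub, hg, hv, sub_self]
    obtain ⟨z', hz'⟩ := (hex _).mp h2
    have h3 : d1 z' = 0 := by
      apply hfi
      rw [hf, hz', map_sub, LinearMap.mem_ker.mp hz, map_zero, hd2, sub_zero]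
    refine ⟨Submodule.Quotient.mk ⟨z', h3⟩, ?_⟩
    have h4 : cohMap f hf (Submodule.Quotient.mk ⟨z', h3⟩) = Submodule.Quotient.mk ⟨f z', by
        rw [LinearMap.mem_ker, ← hf, h3, map_zero]⟩ := rfl
    rw [h4, Submodule.Quotient.eq]
    refine ⟨-w, ?_⟩
    rw [map_neg]
    change - d2 w = f z' - z
    rw [hz']; abel

theorem isArtinian_ker_cohMap (f : C1 →ₗ[R] C2) (g : C2 →ₗ[R] C3)
    (hf : ∀ z, f (d1 z) = d2 (f z)) (hg : ∀ z, g (d2 z) = d3 (g z))
    (hd2 : ∀ z, d2 (d2 z) = 0)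
    (hfi : Function.Injective f) (hex : Function.Exact f g) (hgs : Function.Surjective g)
    [IsArtinian R (Coh d3)] : IsArtinian R (LinearMap.ker (cohMap f hf)) := by
  -- E = pairs (u, z) with d2 u = f z
  let E : Submodule R (C2 × C1) :=
    { carrier := {q | d2 q.1 = f q.2}
      zero_mem' := by simp
      add_mem' := by
        rintro ⟨a, b⟩ ⟨c, d⟩ h1 h2
        simp only [Set.mem_ofPred_eq] at h1 h2 ⊢
        simp [map_add, h1, h2]
      smul_mem' := by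
        rintro r ⟨a, b⟩ h1
        simp only [Set.mem_ofPred_eq] at h1 ⊢
        simp [h1] }
  have memE : ∀ q : C2 × C1, q ∈ E ↔ d2 q.1 = f q.2 := fun q => Iff.rfl
  let e1' : E →ₗ[R] LinearMap.ker d3 :=
    LinearMap.codRestrict _ (g ∘ₗ (LinearMap.fst R C2 C1) ∘ₗ E.subtype) (by
      rintro ⟨⟨u, z⟩, hq⟩
      rw [LinearMap.mem_ker]
      simp only [LinearMap.comp_apply, Submodule.subtype_apply, LinearMap.fst_apply]
      rw [← hg]
      rw [memE] at hq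
      simp only at hq
      rw [hq]
      exact hex.apply_apply_eq_zero z)
  let e1 : E →ₗ[R] Coh d3 := (Submodule.mkQ _) ∘ₗ e1'
  have hE1 : ∀ z : C1, ∀ u : C2, d2 u = f z → d1 z = 0 := by
    intro z u h
    apply hfi
    rw [hf, ← h, hd2, map_zero]
  let e2' : E →ₗ[R] LinearMap.ker d1 :=
    LinearMap.codRestrict _ ((LinearMap.snd R C2 C1) ∘ₗ E.subtype) (by
      rintro ⟨⟨u, z⟩, hq⟩
      exact hE1 z u hq)
  let e2'' : E →ₗ[R] Coh d1 := (Submodule.mkQ _) ∘ₗ e2'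
  let e2 : E →ₗ[R] LinearMap.ker (cohMap f hf) :=
    LinearMap.codRestrict _ e2'' (by
      rintro ⟨⟨u, z⟩, hq⟩
      rw [LinearMap.mem_ker]
      change (Submodule.Quotient.mk ⟨f z, _⟩ : Coh d2) = 0
      rw [coh_mk_eq_zero]
      exact ⟨u, hq⟩)
  apply isArtinian_of_relation e1 e2
  · rintro ⟨⟨u, z⟩, hq⟩ h
    rw [LinearMap.mem_ker] at h ⊢
    apply Subtype.ext
    change (Submodule.Quotient.mk (⟨z, hE1 z u hq⟩ : LinearMap.ker d1) : Coh d1) = 0
    change (Submodule.Quotient.mk (⟨g u, _⟩ : LinearMap.ker d3) : Coh d3) = 0 at h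
    rw [coh_mk_eq_zero] at h ⊢
    obtain ⟨v, hv⟩ := h
    obtain ⟨w, rfl⟩ := hgs v
    have h2 : g (u - d2 w) = 0 := by rw [map_sub, hg, hv, sub_self]
    obtain ⟨z', hz'⟩ := (hex _).mp h2
    refine ⟨z', ?_⟩
    apply hfi
    rw [hf, hz', map_sub, hd2, sub_zero]
    exact hq
  · rintro ⟨η, hη⟩
    obtain ⟨⟨z, hz⟩, rfl⟩ := Submodule.Quotient.mk_surjective _ η
    rw [LinearMap.mem_ker] at hη
    change (Submodule.Quotient.mk (⟨f z, _⟩ : LinearMap.ker d2) : Coh d2) = 0 at hη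
    rw [coh_mk_eq_zero] at hη
    obtain ⟨u, hu⟩ := hη
    exact ⟨⟨⟨u, z⟩, hu⟩, rfl⟩

end Coh

end Pool.Agent.Helper14.FFull
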