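import Pool.Agent.Helper14.FFull.Loc

open Submodule

namespace Pool.Agent.Helper14.FFull

universe u

section Sign

variable (R : Type u) [CommRing R] {n : ℕ}

/-- the Čech sign -/
def sgn (σ : Finset (Fin n)) (j : Fin n) : R := (-1) ^ (σ.filter (· < j)).card

variable {R}

theorem sgn_mul_self (σ : Finset (Fin n)) (j : Fin n) : sgn R σ j * sgn R σ j = 1 := by
  unfold sgn; rw [← mul_pow]; simp

theorem sgn_erase_of_lt {σ : Finset (Fin n)} {i j : Fin n} (hij : i < j) :
    sgn R (σ.erase j) i = sgn R σ i := by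
  unfold sgn
  congr 2
  ext l
  simp only [Finset.mem_filter, Finset.mem_erase]
  constructor
  · rintro ⟨⟨_, h⟩, h'⟩; exact ⟨h, h'⟩
  · rintro ⟨h, h'⟩; exact ⟨⟨fun hl => by rw [hl] at h'; exact absurd (h'.trans hij) (lt_irrefl _), h⟩, h'⟩

theorem sgn_erase_of_gt {σ : Finset (Fin n)} {i j : Fin n} (hi : i ∈ σ) (hij : i < j) :
    sgn R (σ.erase i) j = - sgn R σ j := by
  unfold sgn
  have h1 : (σ.erase i).filter (· < j) = (σ.filter (· < j)).erase i := by
    ext l
    simp only [Finset.mem_filter, Finset.mem_erase]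
    tauto
  have h2 : i ∈ σ.filter (· < j) := by simp [hi, hij]
  rw [h1, Finset.card_erase_of_mem h2]
  have h3 : 0 < (σ.filter (· < j)).card := Finset.card_pos.mpr ⟨i, h2⟩
  obtain ⟨c, hc⟩ : ∃ c, (σ.filter (· < j)).card = c + 1 := ⟨_, (Nat.sub_add_cancel h3).symm⟩
  rw [hc, Nat.add_sub_cancel, pow_succ]
  ring

theorem sgn_anticomm {σ : Finset (Fin n)} {i j : Fin n} (hi : i ∈ σ) (hj : j ∈ σ) (hij : i ≠ j) :
    sgn R σ j * sgn R (σ.erase j) i = - (sgn R σ i * sgn R (σ.erase i) j) := by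
  rcases lt_or_gt_of_ne hij with h | h
  · rw [sgn_erase_of_lt h, sgn_erase_of_gt hi h]; ring
  · rw [sgn_erase_of_lt h, sgn_erase_of_gt hj h]; ring

end Sign

section Complex

variable {R : Type u} [CommRing R] {n : ℕ} (a : Fin n → R)

/-- the product `a_σ` -/
abbrev pr (σ : Finset (Fin n)) : R := ∏ j ∈ σ, a j

theorem pr_dvd {τ σ : Finset (Fin n)} (h : τ ⊆ σ) : pr a τ ∣ pr a σ :=
  Finset.prod_dvd_prod_of_subset _ _ _ h

/-- Čech cochains (all degrees together) with coefficients in `M`. -/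
abbrev CC (M : Type*) [AddCommGroup M] [Module R M] :=
  (σ : Finset (Fin n)) → Loc (pr a σ) M

variable (M : Type*) [AddCommGroup M] [Module R M]

/-- the differential -/
noncomputable def DD : CC a M →ₗ[R] CC a M where
  toFun z σ := ∑ j ∈ σ, sgn R σ j • mres (pr_dvd a (σ.erase_subset j)) M (z (σ.erase j))
  map_add' z w := by
    funext σ
    simp only [Pi.add_apply, map_add, smul_add, Finset.sum_add_distrib]
  map_smul' r z := by
    funext σ
    simp only [Pi.smul_apply, map_smul, RingHom.id_apply, Finset.smul_sum]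
    exact Finset.sum_congr rfl fun j _ => smul_comm _ _ _

theorem DD_apply (z : CC a M) (σ : Finset (Fin n)) :
    DD a M z σ = ∑ j ∈ σ, sgn R σ j • mres (pr_dvd a (σ.erase_subset j)) M (z (σ.erase j)) := rfl

variable {M}

theorem mres_congr (z : CC a M) {τ τ' σ : Finset (Fin n)} (h : τ = τ') (h1 : pr a τ ∣ pr a σ)
    (h2 : pr a τ' ∣ pr a σ) : mres h1 M (z τ) = mres h2 M (z τ') := by
  subst h; rfl

theorem DD_DD (z : CC a M) : DD a M (DD a M z) = 0 := by
  funext σ
  rw [DD_apply]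
  simp only [DD_apply, map_sum, map_smul, mres_mres, Finset.smul_sum, smul_smul]
  rw [Finset.sum_sigma']
  refine Finset.sum_involution (fun p _ => ⟨p.2, p.1⟩) ?_ ?_ ?_ ?_
  · rintro ⟨j, i⟩ hp
    simp only [Finset.mem_sigma, Finset.mem_erase] at hp
    obtain ⟨hj, hij, hi⟩ := hp
    simp only
    rw [sgn_anticomm hi hj hij, mres_congr a z (Finset.erase_right_comm (a := j) (b := i))
      _ (pr_dvd a ((Finset.erase_subset _ _).trans (Finset.erase_subset _ _))), neg_smul,
      neg_add_cancel]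
  · rintro ⟨j, i⟩ hp _ heq
    simp only [Finset.mem_sigma, Finset.mem_erase] at hp
    simp only [Sigma.mk.injEq] at heq
    exact hp.2.1 heq.1
  · rintro ⟨j, i⟩ hp
    simp only [Finset.mem_sigma, Finset.mem_erase] at hp ⊢
    exact ⟨hp.2.2, Ne.symm hp.2.1, hp.1⟩
  · rintro ⟨j, i⟩ hp
    rfl

end Complex

end Pool.Agent.Helper14.FFull
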