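import Pool.Agent.Helper14.FFull.ArtinCoh

open Submodule IsLocalRing

namespace Pool.Agent.Helper14.FFull

universe u

section LocRing

variable {R : Type u} [CommRing R]

theorem toLoc_mul (s m m' : R) : toLoc s R (m * m') = (toLoc s R m : Localization (Submonoid.powers s)) * toLoc s R m' := by
  have : ∀ m, (toLoc s R m : Localization (Submonoid.powers s)) = algebraMap R (Localization (Submonoid.powers s)) m := by
    intro m; rfl
  rw [this, this, this, map_mul]

theorem mres_mul {s t : R} (h : s ∣ t) (z w : Localization (Submonoid.powers s)) :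
    (mres h R (z * w : Localization (Submonoid.powers s)) : Localization (Submonoid.powers t)) =
      (mres h R z : Localization (Submonoid.powers t)) * (mres h R w) := by
  obtain ⟨k, m, hm⟩ := exists_toLoc (M := R) z
  obtain ⟨l, m', hm'⟩ := exists_toLoc (M := R) w
  apply smul_cancel h (k + l)
  have h1 : s ^ (k + l) • (z * w : Localization (Submonoid.powers s)) = toLoc s R (m * m') := by
    rw [toLoc_mul, ← hm, ← hm', pow_add]
    rw [smul_mul_smul_comm]
  have h2 : s ^ (k + l) • ((mres h R z : Localization (Submonoid.powers t)) * (mres h R w)) =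
      toLoc t R (m * m') := by
    rw [pow_add, ← smul_mul_smul_comm, toLoc_mul, ← mres_toLoc h m, ← mres_toLoc h m', ← hm, ← hm',
      map_smul, map_smul]
  rw [h2, ← map_smul, h1, mres_toLoc]

theorem mres_one {s t : R} (h : s ∣ t) :
    (mres h R (1 : Localization (Submonoid.powers s)) : Localization (Submonoid.powers t)) = 1 := by
  have h1 : ∀ s : R, (1 : Localization (Submonoid.powers s)) = toLoc s R 1 := fun s =>
    (map_one (algebraMap R (Localization (Submonoid.powers s)))).symm
  rw [h1, mres_toLoc, h1]

theorem mres_pow {s t : R} (h : s ∣ t) (z : Localization (Submonoid.powers s)) (k : ℕ) :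
    (mres h R (z ^ k : Localization (Submonoid.powers s)) : Localization (Submonoid.powers t)) =
      (mres h R z : Localization (Submonoid.powers t)) ^ k := by
  induction k with
  | zero => rw [pow_zero, pow_zero, mres_one]
  | succ k ih => rw [pow_succ, pow_succ, mres_mul, ih]

end LocRing

section Frob

variable {R : Type u} [CommRing R] {n : ℕ} (a : Fin n → R) (p : ℕ)

/-- `z ↦ z ^ p` is additive on an algebra over a ring of characteristic `p` -/
theorem add_pow_p [Fact p.Prime] [CharP R p] {L : Type*} [CommRing L] [Algebra R L] (z w : L) :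
    (z + w) ^ p = z ^ p + w ^ p := by
  obtain ⟨r, hr⟩ := exists_add_pow_prime_eq (Fact.out : p.Prime) z w
  have h0 : (p : L) = 0 := by
    rw [← map_natCast (algebraMap R L), CharP.cast_eq_zero, map_zero]
  rw [hr, h0]; ring

variable [Fact p.Prime] [CharP R p]

theorem sgn_pow (σ : Finset (Fin n)) (j : Fin n) : sgn R σ j ^ p = sgn R σ j := by
  unfold sgn
  rw [← pow_mul, mul_comm, pow_mul, neg_one_pow_char]

/-- Frobenius on Čech cochains, a Frobenius-semilinear map. -/
noncomputable def frobCC : CC a R →ₛₗ[frobenius R p] CC a R where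
  toFun z σ := (z σ : Localization (Submonoid.powers (pr a σ))) ^ p
  map_add' z w := by
    funext σ
    exact add_pow_p (R := R) p (z σ : Localization (Submonoid.powers (pr a σ))) (w σ)
  map_smul' r z := by
    funext σ
    have := smul_pow r (z σ : Localization (Submonoid.powers (pr a σ))) p
    exact this

theorem frobCC_apply (z : CC a R) (σ : Finset (Fin n)) :
    frobCC a p z σ = (z σ : Localization (Submonoid.powers (pr a σ))) ^ p := rfl

theorem frobCC_DD (z : CC a R) : DD a R (frobCC a p z) = frobCC a p (DD a R z) := by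
  funext σ
  rw [frobCC_apply, DD_apply, DD_apply]
  let φ : Localization (Submonoid.powers (pr a σ)) →+ Localization (Submonoid.powers (pr a σ)) :=
    { toFun := fun z => z ^ p
      map_zero' := zero_pow (Fact.out : p.Prime).ne_zero
      map_add' := add_pow_p (R := R) p }
  have hφ : ∀ z, φ z = z ^ p := fun z => rfl
  have h1 := map_sum φ (fun j => (sgn R σ j • mres (pr_dvd a (σ.erase_subset j)) R
    (z (σ.erase j)) : Localization (Submonoid.powers (pr a σ)))) σ
  rw [hφ] at h1
  refine Eq.trans ?_ h1.symm
  refine Finset.sum_congr rfl fun j _ => ?_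
  rw [hφ, smul_pow, sgn_pow, frobCC_apply, mres_pow]

/-- Frobenius on the cohomology. -/
noncomputable def frobCoh : Coh (DD a R) →+ Coh (DD a R) :=
  QuotientAddGroup.map _ _
    { toFun := fun z : LinearMap.ker (DD a R) => (⟨frobCC a p z, by
        rw [LinearMap.mem_ker, frobCC_DD, LinearMap.mem_ker.mp z.2, map_zero]⟩ :
          LinearMap.ker (DD a R))
      map_zero' := Subtype.ext (map_zero _)
      map_add' := fun z w => Subtype.ext (map_add _ _ _) }
    (by
      rintro ⟨z, hz⟩ ⟨u, hu⟩
      exact ⟨frobCC a p u, by rw [frobCC_DD, hu]; rfl⟩)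

theorem frobCoh_mk (z : CC a R) (hz : DD a R z = 0) :
    frobCoh a p (Submodule.Quotient.mk ⟨z, hz⟩) =
      Submodule.Quotient.mk ⟨frobCC a p z, by rw [LinearMap.mem_ker, frobCC_DD, hz, map_zero]⟩ := rfl

theorem frobCoh_smul (r : R) (η : Coh (DD a R)) : frobCoh a p (r • η) = r ^ p • frobCoh a p η := by
  obtain ⟨⟨z, hz⟩, rfl⟩ := Submodule.Quotient.mk_surjective _ η
  rw [← Submodule.Quotient.mk_smul]
  change frobCoh a p (Submodule.Quotient.mk ⟨r • z, _⟩) = _
  rw [frobCoh_mk, frobCoh_mk, ← Submodule.Quotient.mk_smul]
  congr 1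
  apply Subtype.ext
  change frobCC a p (r • z) = r ^ p • frobCC a p z
  rw [LinearMap.map_smulₛₗ]
  rfl

end Frob

end Pool.Agent.Helper14.FFull
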