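import Pool.Agent.Helper14.FFull.Reindex

/-!
# F-fullness is `m`-adically stable

Local cohomology `H^i_m(A)` of a local ring `(A, m)` is computed by the Čech complex of a finite
sequence `a = (a_1, …, a_n)` of elements of `A` which generates an ideal with radical `m`, and the
Frobenius action on `H^i_m(A)` is induced by the Frobenius maps `z ↦ z ^ p` of the localizations
`A_{a_σ}`.
-/

open IsLocalRing

namespace Pool.Agent.Helper14.FFull.Graded

universe u

section Defs

variable {A : Type u} [CommRing A] {n : ℕ}

/-- The localization `A_{a_σ}` of `A` at the product `a_σ = ∏_{j ∈ σ} a_j`. -/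
abbrev CechLoc (a : Fin n → A) (σ : Finset (Fin n)) : Type u := Localization.Away (∏ j ∈ σ, a j)

theorem isUnit_cech (a : Fin n → A) {τ σ : Finset (Fin n)} (h : τ ⊆ σ) :
    IsUnit (algebraMap A (CechLoc a σ) (∏ j ∈ τ, a j)) :=
  isUnit_of_dvd_unit (map_dvd _ (Finset.prod_dvd_prod_of_subset _ _ _ h))
    (IsLocalization.Away.algebraMap_isUnit (∏ j ∈ σ, a j))

/-- The canonical ring homomorphism `A_{a_τ} → A_{a_σ}` for `τ ⊆ σ`. -/
noncomputable def cechRes (a : Fin n → A) {τ σ : Finset (Fin n)} (h : τ ⊆ σ) :
    CechLoc a τ →+* CechLoc a σ :=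
  IsLocalization.Away.lift (∏ j ∈ τ, a j) (isUnit_cech a h)

/-- The Čech cochains of all degrees together: families `(z_σ)` with `z_σ ∈ A_{a_σ}`, indexed by
the subsets `σ` of `{1, …, n}`. -/
abbrev CechCochain (a : Fin n → A) : Type u := (σ : Finset (Fin n)) → CechLoc a σ

/-- The cochains of degree `i`, that is `C^i = ⊕_{|σ| = i} A_{a_σ}`: the families supported on the
subsets with `i` elements. -/
def cechDegree (a : Fin n → A) (i : ℕ) : Submodule A (CechCochain a) where
  carrier := {z | ∀ σ, σ.card ≠ i → z σ = 0}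
  add_mem' := fun {z w} hz hw σ h => by rw [Pi.add_apply, hz σ h, hw σ h, add_zero]
  zero_mem' := fun _ _ => rfl
  smul_mem' := fun r z hz σ h => by rw [Pi.smul_apply, hz σ h, smul_zero]

/-- The Čech differential
`(d z)_σ = ∑_{j ∈ σ} (-1)^{#{i ∈ σ : i < j}} · (image of z_{σ ∖ {j}} in A_{a_σ})`. -/
noncomputable def cechD (a : Fin n → A) : CechCochain a →ₗ[A] CechCochain a where
  toFun z σ := ∑ j ∈ σ,
    (-1) ^ (σ.filter (· < j)).card * cechRes a (σ.erase_subset j) (z (σ.erase j))
  map_add' z w := by
    funext σ
    simp only [Pi.add_apply, map_add, mul_add, Finset.sum_add_distrib]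
  map_smul' r z := by
    funext σ
    simp only [Pi.smul_apply, RingHom.id_apply, Finset.smul_sum]
    refine Finset.sum_congr rfl fun j _ => ?_
    rw [Algebra.smul_def, map_mul, cechRes, IsLocalization.Away.lift_eq, Algebra.smul_def]
    ring

/-- The Čech cocycles of degree `i`. -/
noncomputable def cocycles (a : Fin n → A) (i : ℕ) : Submodule A (CechCochain a) :=
  cechDegree a i ⊓ LinearMap.ker (cechD a)

/-- The Čech coboundaries of degree `i`: the image of the cochains of degree `i - 1`
(and `0` if `i = 0`). -/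
noncomputable def coboundaries (a : Fin n → A) : ℕ → Submodule A (CechCochain a)
  | 0 => ⊥
  | i + 1 => (cechDegree a i).map (cechD a)

/-- The `i`-th Čech cohomology module of the sequence `a`; it is `H^i_m(A)` if `a` generates an
ideal with radical `m` and `A` is Noetherian. -/
abbrev CechCohomology (a : Fin n → A) (i : ℕ) : Type u :=
  (cocycles a i) ⧸ (coboundaries a i).submoduleOf (cocycles a i)

/-- The image of the Frobenius action `F` on the `i`-th cohomology module, where `F` sends the
class of a cocycle `z = (z_σ)` to the class of `z ^ p = (z_σ ^ p)`. -/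
def frobeniusImage (p : ℕ) (a : Fin n → A) (i : ℕ) : Set (CechCohomology a i) :=
  {η | ∃ z w : cocycles a i, (∀ σ, (w : CechCochain a) σ = (z : CechCochain a) σ ^ p) ∧
    η = Submodule.Quotient.mk w}

/-- `A` is a local ring and is F-full: for every `i`, the `A`-module `H^i_m(A)` is generated by the
image of the Frobenius action. -/
def IsFFull (p : ℕ) (A : Type u) [CommRing A] : Prop :=
  ∃ _ : IsLocalRing A, ∀ (n : ℕ) (a : Fin n → A),
    (Ideal.span (Set.range a)).radical = maximalIdeal A →
      ∀ i : ℕ, Submodule.span A (frobeniusImage p a i) = ⊤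

end Defs

section Bridge

open Pool.Agent.Helper14.FFull

variable {A : Type u} [CommRing A] {n : ℕ} (a : Fin n → A)

theorem cechRes_smul {τ σ : Finset (Fin n)} (h : τ ⊆ σ) (r : A) (z : CechLoc a τ) :
    cechRes a h (r • z) = r • cechRes a h z := by
  rw [Algebra.smul_def, map_mul, cechRes, IsLocalization.Away.lift_eq, Algebra.smul_def]

theorem cechRes_eq {τ σ : Finset (Fin n)} (h : τ ⊆ σ) (z : CechLoc a τ) :
    cechRes a h z = mres (pr_dvd a h) A z := by
  obtain ⟨k, m, hm⟩ := exists_toLoc (M := A) z
  apply smul_cancel (pr_dvd a h) k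
  have h1 : cechRes a h (pr a τ ^ k • z) = cechRes a h (algebraMap A (CechLoc a τ) m) :=
    congrArg (cechRes a h) hm
  rw [cechRes_smul] at h1
  have h2 : cechRes a h (algebraMap A (CechLoc a τ) m) = toLoc (pr a σ) A m := by
    unfold cechRes
    exact IsLocalization.Away.lift_eq _ _ _
  have h3 : pr a τ ^ k • mres (pr_dvd a h) A z = toLoc (pr a σ) A m := by
    rw [← map_smul, hm, mres_toLoc]
  exact (h1.trans h2).trans h3.symm

theorem cechD_eq (z : CechCochain a) : cechD a z = DD a A z := by
  funext σ
  rw [DD_apply]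
  refine Finset.sum_congr rfl fun j _ => ?_
  rw [cechRes_eq, Algebra.smul_def]
  congr 1
  simp [sgn]

/-- the projection onto the cochains of degree `i` -/
noncomputable def degProj (i : ℕ) : CechCochain a →ₗ[A] CechCochain a where
  toFun z σ := if σ.card = i then z σ else 0
  map_add' z w := by
    funext σ
    by_cases h : σ.card = i <;> simp [h]
  map_smul' r z := by
    funext σ
    by_cases h : σ.card = i <;> simp [h]

theorem degProj_apply_of_eq {i : ℕ} {σ : Finset (Fin n)} (h : σ.card = i) (z : CechCochain a) :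
    degProj a i z σ = z σ := if_pos h

theorem degProj_apply_of_ne {i : ℕ} {σ : Finset (Fin n)} (h : σ.card ≠ i) (z : CechCochain a) :
    degProj a i z σ = 0 := if_neg h

theorem degProj_mem (i : ℕ) (z : CechCochain a) : degProj a i z ∈ cechDegree a i :=
  fun _ h => degProj_apply_of_ne a h z

theorem degProj_of_mem {i : ℕ} {z : CechCochain a} (hz : z ∈ cechDegree a i) :
    degProj a i z = z := by
  funext σ
  by_cases h : σ.card = i
  · exact degProj_apply_of_eq a h z
  · rw [degProj_apply_of_ne a h, hz σ h]

theorem cechD_degProj (i : ℕ) (z : CechCochain a) :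
    cechD a (degProj a i z) = degProj a (i + 1) (cechD a z) := by
  funext σ
  by_cases h : σ.card = i + 1
  · rw [degProj_apply_of_eq a h]
    refine Finset.sum_congr rfl fun j hj => ?_
    rw [degProj_apply_of_eq a (by rw [Finset.card_erase_of_mem hj, h]; rfl)]
  · rw [degProj_apply_of_ne a h]
    refine Finset.sum_eq_zero fun j hj => ?_
    rw [degProj_apply_of_ne a, map_zero, mul_zero]
    rw [Finset.card_erase_of_mem hj]
    have : 0 < σ.card := Finset.card_pos.mpr ⟨j, hj⟩
    omega

theorem degProj_zero_cechD (z : CechCochain a) : degProj a 0 (cechD a z) = 0 := by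
  funext σ
  by_cases h : σ.card = 0
  · rw [degProj_apply_of_eq a h]
    rw [Finset.card_eq_zero] at h
    subst h
    change (∑ j ∈ (∅ : Finset (Fin n)), (-1 : CechLoc a ∅) ^ (Finset.filter (· < j) ∅).card *
      cechRes a (Finset.erase_subset j ∅) (z (Finset.erase ∅ j))) = 0
    exact Finset.sum_empty
  · exact degProj_apply_of_ne a h _

theorem degProj_pow {p : ℕ} (hp : p ≠ 0) (i : ℕ) (w : CechCochain a) :
    degProj a i (powCC a p w) = powCC a p (degProj a i w) := by
  funext σ
  by_cases h : σ.card = i
  · rw [degProj_apply_of_eq a h]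
    exact (powCC_congr a (degProj_apply_of_eq a h w)).symm
  · rw [degProj_apply_of_ne a h]
    have h2 : powCC a p (degProj a i w) σ = powCC a p 0 σ :=
      powCC_congr a (degProj_apply_of_ne a h w)
    rw [h2]
    exact (zero_pow hp).symm

theorem sum_degProj (z : CechCochain a) : z = ∑ i ∈ Finset.range (n + 1), degProj a i z := by
  funext σ
  rw [Finset.sum_apply, Finset.sum_eq_single σ.card]
  · exact (degProj_apply_of_eq a rfl z).symm
  · intro i _ hi
    exact degProj_apply_of_ne a (Ne.symm hi) z
  · intro h
    exfalso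
    apply h
    rw [Finset.mem_range]
    have := Finset.card_le_univ σ
    rw [Fintype.card_fin] at this
    omega

variable (p : ℕ) [Fact p.Prime] [CharP A p]

theorem DD_powCC {w : CechCochain a} (hw : DD a A w = 0) : DD a A (powCC a p w) = 0 := by
  have : DD a A (powCC a p w) = frobCC a p (DD a A w) := frobCC_DD a p w
  rw [this, hw, map_zero]

theorem graded_of_TF (h : TF a p Finset.univ) (i : ℕ) :
    Submodule.span A (frobeniusImage p a i) = ⊤ := by
  have hp : p ≠ 0 := (Fact.out : p.Prime).ne_zero
  rw [TF_univ_iff] at h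
  rw [eq_top_iff]
  rintro η -
  obtain ⟨⟨z, hzi, hz⟩, rfl⟩ := Submodule.Quotient.mk_surjective _ η
  obtain ⟨v, hv, u, hu⟩ := h z (by rw [← cechD_eq]; exact hz)
  have key : ∃ v' : cocycles a i, (v' : CechCochain a) = degProj a i v ∧
      (Submodule.Quotient.mk v' : CechCohomology a i) ∈
        Submodule.span A (frobeniusImage p a i) := by
    clear hu
    induction hv using Submodule.span_induction with
    | mem x hx =>
      obtain ⟨w, hw, rfl⟩ := hx
      have hw' : cechD a (degProj a i w) = 0 := by
        rw [cechD_degProj, cechD_eq, hw, map_zero]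
      have hw2 : cechD a (degProj a i (powCC a p w)) = 0 := by
        rw [cechD_degProj, cechD_eq, DD_powCC a p hw, map_zero]
      refine ⟨⟨degProj a i (powCC a p w), degProj_mem a i _, hw2⟩, rfl, ?_⟩
      apply Submodule.subset_span
      refine ⟨⟨degProj a i w, degProj_mem a i _, hw'⟩, _, fun σ => ?_, rfl⟩
      exact congrFun (degProj_pow a hp i w) σ
    | zero => exact ⟨0, (map_zero _).symm, Submodule.zero_mem _⟩
    | add x y _ _ hx hy =>
      obtain ⟨x', hx', hx''⟩ := hx
      obtain ⟨y', hy', hy''⟩ := hy
      refine ⟨x' + y', by rw [Submodule.coe_add, hx', hy', map_add], ?_⟩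
      rw [Submodule.Quotient.mk_add]
      exact Submodule.add_mem _ hx'' hy''
    | smul r x _ hx =>
      obtain ⟨x', hx', hx''⟩ := hx
      refine ⟨r • x', by rw [Submodule.coe_smul, hx', map_smul], ?_⟩
      rw [Submodule.Quotient.mk_smul]
      exact Submodule.smul_mem _ _ hx''
  obtain ⟨v', hv', hv''⟩ := key
  have h1 : (Submodule.Quotient.mk ⟨z, hzi, hz⟩ : CechCohomology a i) =
      Submodule.Quotient.mk v' := by
    rw [Submodule.Quotient.eq]
    change z - (v' : CechCochain a) ∈ coboundaries a i
    rw [hv']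
    have h2 : z = degProj a i v + degProj a i (cechD a u) := by
      rw [← map_add, cechD_eq, ← hu, degProj_of_mem a hzi]
    have h3 : z - degProj a i v = degProj a i (cechD a u) := by
      nth_rewrite 1 [h2]; abel
    rw [h3]
    cases i with
    | zero => rw [degProj_zero_cechD]; exact Submodule.zero_mem _
    | succ i => exact ⟨degProj a i u, degProj_mem a i u, cechD_degProj a i u⟩
  rw [h1]
  exact hv''

theorem TF_of_graded (h : ∀ i : ℕ, Submodule.span A (frobeniusImage p a i) = ⊤) :
    TF a p Finset.univ := by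
  rw [TF_univ_iff]
  -- the property to prove for z
  let T : Submodule A (CC a A) := Submodule.span A
    {x : CC a A | ∃ w : CC a A, DD a A w = 0 ∧ x = powCC a p w}
  have hmain : ∀ i : ℕ, ∀ z : CechCochain a, z ∈ cocycles a i → ∃ v ∈ T, ∃ u : CC a A,
      z = v + DD a A u := by
    intro i
    have hcob : ∀ z : CechCochain a, z ∈ coboundaries a i → ∃ u, z = DD a A u := by
      cases i with
      | zero =>
        intro z hz
        exact ⟨0, by rw [map_zero]; exact (Submodule.mem_bot A).mp hz⟩
      | succ i =>
        rintro z ⟨u, _, hu⟩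
        exact ⟨u, by rw [← cechD_eq, hu]⟩
    have hspan : ∀ η ∈ Submodule.span A (frobeniusImage p a i), ∀ z : cocycles a i,
        (Submodule.Quotient.mk z : CechCohomology a i) = η → ∃ v ∈ T, ∃ u : CC a A,
          (z : CechCochain a) = v + DD a A u := by
      intro η hη
      induction hη using Submodule.span_induction with
      | mem η hη =>
        obtain ⟨w0, w, hw, rfl⟩ := hη
        intro z hz
        rw [Submodule.Quotient.eq] at hz
        obtain ⟨u, hu⟩ := hcob _ hz
        refine ⟨w, Submodule.subset_span ⟨w0, ?_, funext hw⟩, u, ?_⟩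
        · rw [← cechD_eq]; exact w0.2.2
        · rw [← hu]
          change (z : CechCochain a) = w + ((z : CechCochain a) - w)
          abel
      | zero =>
        intro z hz
        rw [Submodule.Quotient.mk_eq_zero] at hz
        obtain ⟨u, hu⟩ := hcob _ hz
        exact ⟨0, Submodule.zero_mem _, u, by rw [zero_add, ← hu]; rfl⟩
      | add η1 η2 _ _ h1 h2 =>
        intro z hz
        obtain ⟨z1, rfl⟩ := Submodule.Quotient.mk_surjective _ η1
        obtain ⟨v1, hv1, u1, hu1⟩ := h1 z1 rfl
        obtain ⟨v2, hv2, u2, hu2⟩ := h2 (z - z1) (by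
          rw [Submodule.Quotient.mk_sub, hz]; abel)
        refine ⟨v1 + v2, Submodule.add_mem _ hv1 hv2, u1 + u2, ?_⟩
        rw [map_add]
        have h3 : (z : CechCochain a) = (z1 : CechCochain a) + ((z - z1 : cocycles a i) :
            CechCochain a) := by rw [Submodule.coe_sub]; abel
        rw [h3, hu2, hu1]
        abel
      | smul r η1 _ h1 =>
        intro z hz
        obtain ⟨z1, rfl⟩ := Submodule.Quotient.mk_surjective _ η1
        obtain ⟨v1, hv1, u1, hu1⟩ := h1 z1 rfl
        rw [← Submodule.Quotient.mk_smul, Submodule.Quotient.eq] at hz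
        obtain ⟨u, hu⟩ := hcob _ hz
        refine ⟨r • v1, Submodule.smul_mem _ _ hv1, r • u1 + u, ?_⟩
        rw [map_add, ← hu, map_smul, ← add_assoc, ← smul_add, ← hu1]
        change (z : CechCochain a) = r • (z1 : CechCochain a) + ((z : CechCochain a) -
          r • (z1 : CechCochain a))
        abel
    intro z hz
    exact hspan (Submodule.Quotient.mk ⟨z, hz⟩) (by rw [h i]; trivial) ⟨z, hz⟩ rfl
  intro z hz
  have hdeg : ∀ i, ∃ v ∈ T, ∃ u : CC a A, degProj a i z = v + DD a A u := by
    intro i
    refine hmain i _ ⟨degProj_mem a i z, ?_⟩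
    change cechD a (degProj a i z) = 0
    rw [cechD_degProj, cechD_eq, hz, map_zero]
  choose v hv u hu using hdeg
  refine ⟨∑ i ∈ Finset.range (n + 1), v i, Submodule.sum_mem _ fun i _ => hv i,
    ∑ i ∈ Finset.range (n + 1), u i, ?_⟩
  rw [map_sum, ← Finset.sum_add_distrib, ← Finset.sum_congr rfl (fun i _ => hu i)]
  exact sum_degProj a z

end Bridge

open Pool.Agent.Helper14.FFull in
/-- **F-fullness is `m`-adically stable.** -/
theorem main (p : ℕ) (hp : p.Prime) (R : Type u) [CommRing R] [IsNoetherianRing R]
    [IsLocalRing R] [CharP R p] (x : R) (hxm : x ∈ maximalIdeal R) (hx : x ∈ nonZeroDivisors R)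
    (hfull : IsFFull p (R ⧸ Ideal.span {x})) :
    ∃ N : ℕ, ∀ δ ∈ maximalIdeal R ^ N, IsFFull p (R ⧸ Ideal.span {x + δ}) := by
  have : Fact p.Prime := ⟨hp⟩
  -- a sequence generating the maximal ideal of R
  obtain ⟨n, a, ha⟩ := Submodule.fg_iff_exists_fin_generating_family.mp
    (IsNoetherian.noetherian (maximalIdeal R))
  have ha' : Ideal.span (Set.range a) = maximalIdeal R := ha
  have harad : (Ideal.span (Set.range a)).radical = maximalIdeal R := by
    rw [ha', (maximalIdeal.isMaximal R).isPrime.radical]
  -- local structure of the quotients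
  have hloc : ∀ y ∈ maximalIdeal R, ∃ (h1 : IsLocalRing (R ⧸ Ideal.span {y})),
      CharP (R ⧸ Ideal.span {y}) p ∧
      (Ideal.span (Set.range fun j => Ideal.Quotient.mk (Ideal.span {y}) (a j))).radical =
        maximalIdeal (R ⧸ Ideal.span {y}) := by
    intro y hy
    have hne : Ideal.span {y} ≠ ⊤ := by
      intro h
      have : (⊤ : Ideal R) ≤ maximalIdeal R := by
        rw [← h, Ideal.span_le, Set.singleton_subset_iff]; exact hy
      exact (maximalIdeal.isMaximal R).ne_top (top_le_iff.mp this)
    have hnt : Nontrivial (R ⧸ Ideal.span {y}) := Ideal.Quotient.nontrivial_iff.mpr hne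
    have h1 : IsLocalRing (R ⧸ Ideal.span {y}) :=
      IsLocalRing.of_surjective' (Ideal.Quotient.mk _) Ideal.Quotient.mk_surjective
    refine ⟨h1, ?_, ?_⟩
    · have h0 : ((p : ℕ) : R ⧸ Ideal.span {y}) = 0 := by
        rw [← map_natCast (Ideal.Quotient.mk (Ideal.span {y})), CharP.cast_eq_zero, map_zero]
      exact (CharP.charP_iff_prime_eq_zero hp).mpr h0
    · have h2 : (Ideal.span (Set.range fun j => Ideal.Quotient.mk (Ideal.span {y}) (a j))) =
          (maximalIdeal R).map (Ideal.Quotient.mk (Ideal.span {y})) := by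
        rw [← ha', Ideal.map_span, ← Set.range_comp]
        rfl
      have h3 : (maximalIdeal R).map (Ideal.Quotient.mk (Ideal.span {y})) =
          maximalIdeal (R ⧸ Ideal.span {y}) := by
        have h4 : ((maximalIdeal R).map (Ideal.Quotient.mk (Ideal.span {y}))).IsMaximal := by
          rcases Ideal.map_eq_top_or_isMaximal_of_surjective (Ideal.Quotient.mk (Ideal.span {y}))
            Ideal.Quotient.mk_surjective (maximalIdeal.isMaximal R) with h | h
          · exfalso
            have h5 : (1 : R ⧸ Ideal.span {y}) ∈ (maximalIdeal R).map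
              (Ideal.Quotient.mk (Ideal.span {y})) := by rw [h]; trivial
            obtain ⟨r, hr, hr1⟩ :=
              (Ideal.mem_map_iff_of_surjective _ Ideal.Quotient.mk_surjective).mp h5
            have h6 : r - 1 ∈ Ideal.span {y} := by
              rw [← Ideal.Quotient.eq_zero_iff_mem, map_sub, hr1, map_one, sub_self]
            have h7 : r - 1 ∈ maximalIdeal R := by
              obtain ⟨s, hs⟩ := Ideal.mem_span_singleton.mp h6
              rw [hs]; exact Ideal.mul_mem_right _ _ hy
            have h8 : (1 : R) ∈ maximalIdeal R := by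
              have := Ideal.sub_mem _ hr h7
              simp at this
            exact (Ideal.ne_top_iff_one _).mp (maximalIdeal.isMaximal R).ne_top h8
          · exact h
        exact IsLocalRing.eq_maximalIdeal h4
      rw [h2, h3, (maximalIdeal.isMaximal _).isPrime.radical]
  -- apply the hypothesis
  obtain ⟨h1, hchar, hrad⟩ := hloc x hxm
  obtain ⟨h1', hfull⟩ := hfull
  have hTF : TF (fun j => Ideal.Quotient.mk (Ideal.span {x}) (a j)) p Finset.univ :=
    TF_of_graded _ p (hfull n _ hrad)
  obtain ⟨N, hN⟩ := stable_TF p a harad hxm hx hTF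
  refine ⟨N + 1, fun δ hδ => ?_⟩
  have hδm : x + δ ∈ maximalIdeal R :=
    Ideal.add_mem _ hxm (Ideal.pow_le_self (Nat.succ_ne_zero N) hδ)
  obtain ⟨h2, hchar2, hrad2⟩ := hloc (x + δ) hδm
  refine ⟨h2, fun m b hb i => ?_⟩
  apply graded_of_TF b p
  rw [TF_iff_of_radical_eq p b (fun j => Ideal.Quotient.mk (Ideal.span {x + δ}) (a j))
    (hb.trans hrad2.symm)]
  exact hN δ (Ideal.pow_le_pow_right (Nat.le_succ N) hδ)

end Pool.Agent.Helper14.FFull.Graded
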