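import Pool.Agent.Helper14.FFull.Coh

open Submodule

namespace Pool.Agent.Helper14.FFull

universe u

section Homotopy

variable {R : Type u} [CommRing R] {n : ℕ} (a : Fin n → R)
  {M : Type*} [AddCommGroup M] [Module R M]

theorem exists_uniform (P : Finset (Fin n) → ℕ → Prop)
    (h : ∀ σ, ∃ k, P σ k) (hmono : ∀ σ k k', k ≤ k' → P σ k → P σ k') : ∃ k, ∀ σ, P σ k := by
  choose f hf using h
  refine ⟨Finset.univ.sup f, fun σ => hmono σ (f σ) _ (Finset.le_sup (Finset.mem_univ σ)) (hf σ)⟩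

theorem sgn_swap {σ : Finset (Fin n)} {l j : Fin n} (hj : j ∉ σ) (hl : l ∈ σ) :
    sgn R σ l * sgn R (insert j (σ.erase l)) j =
      - (sgn R (insert j σ) l * sgn R (insert j σ) j) := by
  have hlj : l ≠ j := fun h => hj (h ▸ hl)
  have h1 := sgn_anticomm (R := R) (σ := insert j σ) (Finset.mem_insert_of_mem hl)
    (Finset.mem_insert_self j σ) hlj
  rw [Finset.erase_insert hj] at h1
  have h2 : (insert j σ).erase l = insert j (σ.erase l) := Finset.erase_insert_of_ne hlj.symm
  rw [h2] at h1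
  have h3 := sgn_mul_self (R := R) (insert j σ) j
  have h4 := sgn_mul_self (R := R) (insert j (σ.erase l)) j
  calc sgn R σ l * sgn R (insert j (σ.erase l)) j
      = (sgn R (insert j σ) j * sgn R (insert j σ) j) * (sgn R σ l *
        sgn R (insert j (σ.erase l)) j) := by rw [h3, one_mul]
    _ = sgn R (insert j σ) j * (sgn R (insert j σ) j * sgn R σ l) *
        sgn R (insert j (σ.erase l)) j := by ring
    _ = - (sgn R (insert j σ) l * sgn R (insert j σ) j *
        (sgn R (insert j (σ.erase l)) j * sgn R (insert j (σ.erase l)) j)) := by rw [h1]; ring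
    _ = _ := by rw [h4, mul_one]

theorem homotopy (z : CC a M) (S : Finset (Fin n)) (j : Fin n) (hjS : j ∈ S)
    (hz : ∀ σ ⊆ S, DD a M z σ = 0) :
    ∃ (t : ℕ) (u : CC a M), (∀ σ, z (insert j σ) = 0 → u σ = 0) ∧
      ∀ σ ⊆ S, DD a M u σ = a j ^ t • z σ := by
  -- Step 1
  obtain ⟨t0, ht0⟩ : ∃ t0 : ℕ, ∀ σ : Finset (Fin n), j ∉ σ → ∃ w : Loc (pr a σ) M,
      mres (pr_dvd a (Finset.subset_insert j σ)) M w =
        a j ^ t0 • sgn R (insert j σ) j • z (insert j σ) ∧ (z (insert j σ) = 0 → w = 0) := by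
    apply exists_uniform (P := fun σ k => j ∉ σ → ∃ w : Loc (pr a σ) M,
      mres (pr_dvd a (Finset.subset_insert j σ)) M w =
        a j ^ k • sgn R (insert j σ) j • z (insert j σ) ∧ (z (insert j σ) = 0 → w = 0))
    · intro σ
      by_cases hj : j ∈ σ
      · exact ⟨0, fun h => absurd hj h⟩
      by_cases hz0 : z (insert j σ) = 0
      · refine ⟨0, fun _ => ⟨0, ?_, fun _ => rfl⟩⟩
        rw [map_zero, hz0, smul_zero, smul_zero]
      · obtain ⟨k, w, hw⟩ := mres_surj (M := M) (pr_dvd a (Finset.subset_insert j σ))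
          (Finset.prod_insert hj) (sgn R (insert j σ) j • z (insert j σ))
        exact ⟨k, fun _ => ⟨w, hw, fun h => absurd h hz0⟩⟩
    · intro σ k k' hkk h hj
      obtain ⟨w, hw, hw0⟩ := h hj
      refine ⟨a j ^ (k' - k) • w, ?_, fun h => by rw [hw0 h, smul_zero]⟩
      rw [map_smul, hw, smul_smul, ← pow_add, Nat.sub_add_cancel hkk]
  choose! w hw hw0 using ht0
  let u : CC a M := fun σ => if j ∈ σ then 0 else w σ
  have huj : ∀ σ, j ∈ σ → u σ = 0 := fun σ h => by simp only [u, if_pos h]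
  have hu : ∀ σ, j ∉ σ → u σ = w σ := fun σ h => by simp only [u, if_neg h]
  have hu0 : ∀ σ, z (insert j σ) = 0 → u σ = 0 := by
    intro σ h
    by_cases hj : j ∈ σ
    · exact huj σ hj
    · rw [hu σ hj, hw0 σ hj h]
  have hres : ∀ ρ τ : Finset (Fin n), j ∉ ρ → ∀ (h : insert j ρ ⊆ τ),
      mres (pr_dvd a ((Finset.subset_insert j ρ).trans h)) M (u ρ) =
        a j ^ t0 • sgn R (insert j ρ) j • mres (pr_dvd a h) M (z (insert j ρ)) := by
    intro ρ τ hj h
    rw [hu ρ hj, ← mres_mres (pr_dvd a (Finset.subset_insert j ρ)) (pr_dvd a h), hw ρ hj,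
      map_smul, map_smul]
  -- Step 4
  have hin : ∀ σ, j ∈ σ → DD a M u σ = a j ^ t0 • z σ := by
    intro σ hj
    rw [DD_apply, Finset.sum_eq_single j]
    · have h1 : insert j (σ.erase j) = σ := Finset.insert_erase hj
      have h2 := hres (σ.erase j) σ (Finset.notMem_erase j σ) (le_of_eq h1)
      rw [h2, smul_comm, mres_congr a z h1 _ (dvd_refl _), mres_self, h1, smul_smul, smul_smul,
        mul_assoc, sgn_mul_self, mul_one]
    · intro l hl hlj
      rw [huj _ (Finset.mem_erase.mpr ⟨hlj.symm, hj⟩), map_zero, smul_zero]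
    · intro h; exact absurd hj h
  -- Step 3
  have hout : ∀ σ, j ∉ σ → σ ⊆ S →
      mres (pr_dvd a (Finset.subset_insert j σ)) M (DD a M u σ - a j ^ t0 • z σ) = 0 := by
    intro σ hj hσ
    have hS : insert j σ ⊆ S := Finset.insert_subset hjS hσ
    have h0 := hz _ hS
    rw [DD_apply, Finset.sum_insert hj,
      mres_congr a z (Finset.erase_insert hj) _ (pr_dvd a (Finset.subset_insert j σ))] at h0
    rw [map_sub, map_smul, DD_apply, map_sum, sub_eq_zero]
    have h1 : ∀ l ∈ σ, mres (pr_dvd a (Finset.subset_insert j σ)) M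
        (sgn R σ l • mres (pr_dvd a (σ.erase_subset l)) M (u (σ.erase l))) =
        (- (a j ^ t0 * sgn R (insert j σ) j)) • (sgn R (insert j σ) l •
          mres (pr_dvd a ((insert j σ).erase_subset l)) M (z ((insert j σ).erase l))) := by
      intro l hl
      have hlj : l ≠ j := fun h => hj (h ▸ hl)
      have h2 : insert j (σ.erase l) = (insert j σ).erase l :=
        (Finset.erase_insert_of_ne hlj.symm).symm
      have h3 : insert j (σ.erase l) ⊆ insert j σ := h2 ▸ Finset.erase_subset _ _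
      rw [map_smul, mres_mres]
      rw [hres (σ.erase l) (insert j σ) (fun h => hj (Finset.mem_of_mem_erase h)) h3,
        mres_congr a z h2 _ (pr_dvd a ((insert j σ).erase_subset l))]
      rw [smul_comm, smul_smul, smul_smul, smul_smul, mul_assoc, sgn_swap hj hl]
      congr 1
      ring
    rw [Finset.sum_congr rfl h1, ← Finset.smul_sum, eq_neg_of_add_eq_zero_right h0, smul_neg,
      neg_smul, neg_neg, smul_smul, mul_assoc, sgn_mul_self, mul_one]
  obtain ⟨t1, ht1⟩ : ∃ t1 : ℕ, ∀ σ : Finset (Fin n), j ∉ σ → σ ⊆ S →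
      a j ^ t1 • (DD a M u σ - a j ^ t0 • z σ) = 0 := by
    apply exists_uniform (P := fun σ k => j ∉ σ → σ ⊆ S →
      a j ^ k • (DD a M u σ - a j ^ t0 • z σ) = 0)
    · intro σ
      by_cases hj : j ∈ σ
      · exact ⟨0, fun h => absurd hj h⟩
      by_cases hσ : σ ⊆ S
      · obtain ⟨k, hk⟩ := mres_eq_zero (pr_dvd a (Finset.subset_insert j σ))
          (Finset.prod_insert hj) (hout σ hj hσ)
        exact ⟨k, fun _ _ => hk⟩
      · exact ⟨0, fun _ h => absurd h hσ⟩
    · intro σ k k' hkk h hj hσ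
      rw [← Nat.sub_add_cancel hkk, pow_add, mul_smul, h hj hσ, smul_zero]
  refine ⟨t1 + t0, a j ^ t1 • u, fun σ h => by rw [Pi.smul_apply, hu0 σ h, smul_zero], ?_⟩
  intro σ hσ
  rw [map_smul, Pi.smul_apply]
  by_cases hj : j ∈ σ
  · rw [hin σ hj, smul_smul, ← pow_add]
  · have := ht1 σ hj hσ
    rw [smul_sub, sub_eq_zero] at this
    rw [this, smul_smul, ← pow_add]

end Homotopy

end Pool.Agent.Helper14.FFull
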