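import Pool.Agent.Helper14.FFull.Stable

open Submodule IsLocalRing

namespace Pool.Agent.Helper14.FFull

universe u

section Indep

variable {A : Type u} [CommRing A] {n : ℕ} (c : Fin n → A)

theorem DD_congr {M : Type*} [AddCommGroup M] [Module A M] {z w : CC c M} {S : Finset (Fin n)}
    (h : ∀ σ ⊆ S, z σ = w σ) :
    ∀ σ ⊆ S, DD c M z σ = DD c M w σ := by
  intro σ hσ
  rw [DD_apply, DD_apply]
  refine Finset.sum_congr rfl fun j _ => ?_
  rw [h _ ((σ.erase_subset j).trans hσ)]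

theorem DD_eq_zero_of_supp {M : Type*} [AddCommGroup M] [Module A M] {z : CC c M} {j : Fin n}
    (h : ∀ σ, j ∉ σ → z σ = 0) (σ : Finset (Fin n)) (hσ : j ∉ σ) : DD c M z σ = 0 := by
  rw [DD_apply]
  refine Finset.sum_eq_zero fun i _ => ?_
  rw [h _ (fun h' => hσ (Finset.mem_of_mem_erase h')), map_zero, smul_zero]

theorem K_acyclic {S : Finset (Fin n)} {j : Fin n} (hj : j ∉ S)
    (hrad : c j ∈ (Ideal.span (c '' S)).radical) (z : CC c A)
    (hz : ∀ σ ⊆ insert j S, DD c A z σ = 0)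
    (hsupp : ∀ σ ⊆ insert j S, j ∉ σ → z σ = 0) :
    ∃ u : CC c A, (∀ σ, j ∉ σ → u σ = 0) ∧ ∀ σ ⊆ insert j S, DD c A u σ = z σ := by
  let z' : CC c A := fun σ => if j ∈ σ then z σ else 0
  have hz'in : ∀ σ, j ∈ σ → z' σ = z σ := fun σ h => by simp only [z', if_pos h]
  have hz'out : ∀ σ, j ∉ σ → z' σ = 0 := fun σ h => by simp only [z', if_neg h]
  have hzz' : ∀ σ ⊆ insert j S, z' σ = z σ := by
    intro σ hσ
    by_cases h : j ∈ σ
    · exact hz'in σ h
    · rw [hz'out σ h, hsupp σ hσ h]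
  have hz'0 : ∀ σ ⊆ insert j S, DD c A z' σ = 0 := fun σ hσ => by
    rw [DD_congr c hzz' σ hσ, hz σ hσ]
  let J : Ideal A :=
    { carrier := {r | ∃ u : CC c A, (∀ σ, j ∉ σ → u σ = 0) ∧
        ∀ σ ⊆ insert j S, DD c A u σ = r • z' σ}
      zero_mem' := ⟨0, fun _ _ => rfl, fun σ _ => by rw [map_zero, zero_smul]; rfl⟩
      add_mem' := by
        rintro r s ⟨u, hu, hu'⟩ ⟨v, hv, hv'⟩
        refine ⟨u + v, fun σ h => by rw [Pi.add_apply, hu σ h, hv σ h, add_zero], fun σ h => ?_⟩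
        rw [map_add, Pi.add_apply, hu' σ h, hv' σ h, add_smul]
      smul_mem' := by
        rintro r s ⟨u, hu, hu'⟩
        refine ⟨r • u, fun σ h => by rw [Pi.smul_apply, hu σ h, smul_zero], fun σ h => ?_⟩
        rw [map_smul, Pi.smul_apply, hu' σ h, smul_eq_mul, mul_smul] }
  have memJ : ∀ r, r ∈ J ↔ ∃ u : CC c A, (∀ σ, j ∉ σ → u σ = 0) ∧
        ∀ σ ⊆ insert j S, DD c A u σ = r • z' σ := fun r => Iff.rfl
  have h1 : Ideal.span (c '' S) ≤ J.radical := by
    rw [Ideal.span_le]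
    rintro _ ⟨i, hi, rfl⟩
    obtain ⟨t, u, hu, hu'⟩ := homotopy c z' (insert j S) i (Finset.mem_insert_of_mem hi) hz'0
    refine ⟨t, (memJ _).mpr ⟨u, fun σ h => hu σ (hz'out _ ?_), hu'⟩⟩
    rw [Finset.mem_insert, not_or]
    exact ⟨fun h' => hj (h' ▸ hi), h⟩
  have h2 : c j ∈ J.radical := by
    have := Ideal.radical_mono h1 hrad
    rwa [Ideal.radical_idem] at this
  obtain ⟨N, u, hu, hu'⟩ := h2
  have h3 : ∀ σ, ∃ w : Loc (pr c σ) A, c j ^ N • w = u σ ∧ (j ∉ σ → w = 0) := by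
    intro σ
    by_cases h : j ∈ σ
    · obtain ⟨w, hw⟩ := exists_smul_eq (Finset.dvd_prod_of_mem c h) N (u σ)
      exact ⟨w, hw, fun h' => absurd h h'⟩
    · exact ⟨0, by rw [smul_zero, hu σ h], fun _ => rfl⟩
  choose v hv hv0 using h3
  refine ⟨v, hv0, fun σ hσ => ?_⟩
  by_cases h : j ∈ σ
  · apply smul_cancel (Finset.dvd_prod_of_mem c h) N
    have h4 : c j ^ N • v = u := funext hv
    rw [← Pi.smul_apply, ← map_smul, h4, hu' σ hσ, hz'in σ h]
  · rw [DD_eq_zero_of_supp c hv0 σ h, hsupp σ hσ h]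

/-- extension of cocycles from `S` to `insert j S`. -/
theorem extend_cocycle {S : Finset (Fin n)} {j : Fin n} (hj : j ∉ S)
    (hrad : c j ∈ (Ideal.span (c '' S)).radical) (z : CC c A)
    (hz : ∀ σ ⊆ S, DD c A z σ = 0) :
    ∃ z' : CC c A, (∀ σ ⊆ insert j S, DD c A z' σ = 0) ∧ ∀ σ ⊆ S, z' σ = z σ := by
  let z0 : CC c A := fun σ => if j ∈ σ then 0 else z σ
  have hz0in : ∀ σ, j ∈ σ → z0 σ = 0 := fun σ h => by simp only [z0, if_pos h]
  have hz0out : ∀ σ, j ∉ σ → z0 σ = z σ := fun σ h => by simp only [z0, if_neg h]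
  have hsub : ∀ σ ⊆ insert j S, j ∉ σ → σ ⊆ S := by
    intro σ hσ h
    exact (Finset.subset_insert_iff_of_notMem h).mp hσ
  have hS : ∀ σ ⊆ S, j ∉ σ := fun σ hσ h => hj (hσ h)
  have hz0S : ∀ σ ⊆ S, z0 σ = z σ := fun σ hσ => hz0out σ (hS σ hσ)
  obtain ⟨k, hk, hk'⟩ := K_acyclic c hj hrad (DD c A z0) (fun σ _ => by rw [DD_DD]; rfl)
    (fun σ hσ h => by rw [DD_congr c hz0S σ (hsub σ hσ h), hz σ (hsub σ hσ h)])
  refine ⟨z0 - k, fun σ hσ => ?_, fun σ hσ => ?_⟩
  · rw [map_sub, Pi.sub_apply, hk' σ hσ, sub_self]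
  · rw [Pi.sub_apply, hk σ (hS σ hσ), sub_zero, hz0S σ hσ]

theorem powCC_congr {p : ℕ} {z w : CC c A} {σ : Finset (Fin n)} (h : z σ = w σ) :
    powCC c p z σ = powCC c p w σ := by
  unfold powCC; rw [h]

variable (p : ℕ) [Fact p.Prime] [CharP A p]

theorem TF_insert_iff {S : Finset (Fin n)} {j : Fin n} (hj : j ∉ S)
    (hrad : c j ∈ (Ideal.span (c '' S)).radical) :
    TF c p (insert j S) ↔ TF c p S := by
  have hsub : ∀ σ ⊆ insert j S, j ∉ σ → σ ⊆ S := by
    intro σ hσ h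
    exact (Finset.subset_insert_iff_of_notMem h).mp hσ
  constructor
  · intro h z hz
    obtain ⟨z', hz', hzz'⟩ := extend_cocycle c hj hrad z hz
    obtain ⟨v, hv, u, hu⟩ := h z' hz'
    refine ⟨v, ?_, u, fun σ hσ => ?_⟩
    · refine Submodule.span_mono ?_ hv
      rintro _ ⟨w, hw, rfl⟩
      exact ⟨w, fun σ hσ => hw σ (hσ.trans (Finset.subset_insert j S)), rfl⟩
    · rw [← hzz' σ hσ, hu σ (hσ.trans (Finset.subset_insert j S))]
  · intro h z hz
    obtain ⟨v, hv, u, hu⟩ := h z (fun σ hσ => hz σ (hσ.trans (Finset.subset_insert j S)))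
    have key : ∃ v' ∈ Submodule.span A {x : CC c A | ∃ w : CC c A,
        (∀ σ ⊆ insert j S, DD c A w σ = 0) ∧ x = powCC c p w}, ∀ σ ⊆ S, v' σ = v σ := by
      clear hu
      induction hv using Submodule.span_induction with
      | mem x hx =>
        obtain ⟨w, hw, rfl⟩ := hx
        obtain ⟨w', hw', hww'⟩ := extend_cocycle c hj hrad w hw
        exact ⟨powCC c p w', Submodule.subset_span ⟨w', hw', rfl⟩,
          fun σ hσ => powCC_congr c (hww' σ hσ)⟩
      | zero => exact ⟨0, Submodule.zero_mem _, fun _ _ => rfl⟩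
      | add a b _ _ ha hb =>
        obtain ⟨a', ha', ha''⟩ := ha
        obtain ⟨b', hb', hb''⟩ := hb
        exact ⟨a' + b', Submodule.add_mem _ ha' hb', fun σ hσ => by
          rw [Pi.add_apply, Pi.add_apply, ha'' σ hσ, hb'' σ hσ]⟩
      | smul r b _ hb =>
        obtain ⟨b', hb', hb''⟩ := hb
        exact ⟨r • b', Submodule.smul_mem _ _ hb', fun σ hσ => by
          rw [Pi.smul_apply, Pi.smul_apply, hb'' σ hσ]⟩
    obtain ⟨v', hv', hvv'⟩ := key
    have hv'0 : ∀ σ ⊆ insert j S, DD c A v' σ = 0 := by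
      clear hvv'
      induction hv' using Submodule.span_induction with
      | mem x hx =>
        obtain ⟨w, hw, rfl⟩ := hx
        intro σ hσ
        have : DD c A (powCC c p w) σ = frobCC c p (DD c A w) σ := congrFun (frobCC_DD c p w) σ
        rw [this, frobCC_apply, hw σ hσ]
        exact zero_pow (Fact.out : p.Prime).ne_zero
      | zero => intro σ _; rw [map_zero]; rfl
      | add a b _ _ ha hb => intro σ hσ; rw [map_add, Pi.add_apply, ha σ hσ, hb σ hσ, add_zero]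
      | smul r b _ hb => intro σ hσ; rw [map_smul, Pi.smul_apply, hb σ hσ, smul_zero]
    obtain ⟨k, hk, hk'⟩ := K_acyclic c hj hrad (z - v' - DD c A u) (fun σ hσ => by
        rw [map_sub, map_sub, DD_DD, sub_zero, Pi.sub_apply, hz σ hσ, hv'0 σ hσ, sub_zero])
      (fun σ hσ h => by
        rw [Pi.sub_apply, Pi.sub_apply, hu σ (hsub σ hσ h), hvv' σ (hsub σ hσ h)]; abel)
    refine ⟨v', hv', u + k, fun σ hσ => ?_⟩
    rw [map_add, Pi.add_apply, hk' σ hσ, Pi.sub_apply, Pi.sub_apply]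
    abel

theorem TF_subset_iff {S T : Finset (Fin n)} (hST : S ⊆ T)
    (hrad : ∀ j ∈ T, c j ∈ (Ideal.span (c '' S)).radical) : TF c p T ↔ TF c p S := by
  obtain ⟨U, rfl⟩ : ∃ U, T = S ∪ U := ⟨T, (Finset.union_eq_right.mpr hST).symm⟩
  clear hST
  induction U using Finset.induction_on with
  | empty => rw [Finset.union_empty]
  | insert j U hjU ih =>
    have ih' := ih (fun i hi => hrad i (Finset.union_subset_union_right (Finset.subset_insert j U) hi))
    rw [Finset.union_insert]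
    by_cases hj : j ∈ S ∪ U
    · rw [Finset.insert_eq_of_mem hj]; exact ih'
    · rw [TF_insert_iff c p hj, ih']
      have h1 := hrad j (by simp)
      refine Ideal.radical_mono (Ideal.span_mono (Set.image_mono ?_)) h1
      intro x hx
      exact Finset.mem_coe.mpr (Finset.mem_union_left _ hx)

end Indep

end Pool.Agent.Helper14.FFull
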