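import Mathlib

open Submodule

namespace Pool.Agent.Helper14.FFull

universe u

section Loc

variable {R : Type u} [CommRing R]

/-- The localization of `M` at the powers of `s`. -/
abbrev Loc (s : R) (M : Type*) [AddCommGroup M] [Module R M] :=
  LocalizedModule (Submonoid.powers s) M

variable {M N : Type*} [AddCommGroup M] [Module R M] [AddCommGroup N] [Module R N]

/-- canonical map -/
noncomputable abbrev toLoc (s : R) (M : Type*) [AddCommGroup M] [Module R M] : M →ₗ[R] Loc s M :=
  LocalizedModule.mkLinearMap (Submonoid.powers s) M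

theorem isUnit_of_dvd {s t : R} (h : s ∣ t) (x : Submonoid.powers s) :
    IsUnit (algebraMap R (Module.End R (Loc t M)) x) := by
  obtain ⟨_, k, rfl⟩ := x
  obtain ⟨c, rfl⟩ := h
  have h1 : IsUnit (algebraMap R (Module.End R (Loc (s * c) M)) ((s * c) ^ k)) :=
    IsLocalizedModule.map_units (S := Submonoid.powers (s * c)) (toLoc (s * c) M)
      ⟨(s * c) ^ k, k, rfl⟩
  rw [mul_pow, map_mul] at h1
  exact ((Algebra.commute_algebraMap_left _ _).isUnit_mul_iff.mp h1).1

theorem smul_bij {s t : R} (h : s ∣ t) (k : ℕ) :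
    Function.Bijective (fun z : Loc t M => s ^ k • z) := by
  have := (Module.End.isUnit_iff _).mp (isUnit_of_dvd (M := M) h ⟨s ^ k, k, rfl⟩)
  exact this

theorem smul_cancel {s t : R} (h : s ∣ t) (k : ℕ) {z w : Loc t M} (hzw : s ^ k • z = s ^ k • w) :
    z = w := (smul_bij h k).1 hzw

theorem exists_smul_eq {s t : R} (h : s ∣ t) (k : ℕ) (z : Loc t M) :
    ∃ w, s ^ k • w = z := (smul_bij h k).2 z

theorem exists_toLoc {s : R} (z : Loc s M) : ∃ (k : ℕ) (m : M), s ^ k • z = toLoc s M m := by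
  obtain ⟨⟨m, ⟨_, k, rfl⟩⟩, hm⟩ := IsLocalizedModule.surj (Submonoid.powers s) (toLoc s M) z
  exact ⟨k, m, hm⟩

theorem toLoc_eq_zero {s : R} {m : M} : toLoc s M m = 0 ↔ ∃ k : ℕ, s ^ k • m = 0 := by
  rw [IsLocalizedModule.eq_zero_iff (Submonoid.powers s)]
  constructor
  · rintro ⟨⟨_, k, rfl⟩, h⟩; exact ⟨k, h⟩
  · rintro ⟨k, h⟩; exact ⟨⟨_, k, rfl⟩, h⟩

/-- The canonical map `M_s → M_t` for `s ∣ t`. -/
noncomputable def mres {s t : R} (h : s ∣ t) (M : Type*) [AddCommGroup M] [Module R M] :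
    Loc s M →ₗ[R] Loc t M :=
  LocalizedModule.lift (Submonoid.powers s) (toLoc t M) (isUnit_of_dvd h)

theorem mres_toLoc {s t : R} (h : s ∣ t) (m : M) : mres h M (toLoc s M m) = toLoc t M m := by
  have := LocalizedModule.lift_comp (Submonoid.powers s) (toLoc t M) (isUnit_of_dvd h)
  exact LinearMap.congr_fun this m

/-- uniqueness -/
theorem mres_unique {s t : R} (h : s ∣ t) (f : Loc s M →ₗ[R] Loc t M)
    (hf : ∀ m, f (toLoc s M m) = toLoc t M m) : f = mres h M := by
  apply IsLocalizedModule.ext (Submonoid.powers s) (toLoc s M) (isUnit_of_dvd h)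
  ext m
  simp only [LinearMap.comp_apply]
  rw [hf, mres_toLoc]

theorem mres_self {s : R} (h : s ∣ s) (z : Loc s M) : mres h M z = z := by
  have := mres_unique (M := M) h LinearMap.id (fun m => rfl)
  rw [← this]; rfl

theorem mres_mres {s t v : R} (h : s ∣ t) (h' : t ∣ v) (z : Loc s M) :
    mres h' M (mres h M z) = mres (h.trans h') M z := by
  have := mres_unique (M := M) (h.trans h') ((mres h' M) ∘ₗ (mres h M)) (fun m => by
    simp only [LinearMap.comp_apply, mres_toLoc])
  rw [← this]; rfl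

theorem mres_surj {s t c : R} (h : s ∣ t) (ht : t = c * s) (z : Loc t M) :
    ∃ (k : ℕ) (u : Loc s M), mres h M u = c ^ k • z := by
  obtain ⟨k, m, hm⟩ := exists_toLoc z
  obtain ⟨u, hu⟩ := exists_smul_eq (dvd_refl s) k (toLoc s M m)
  refine ⟨k, u, smul_cancel h k ?_⟩
  rw [← map_smul, hu, mres_toLoc, ← hm, smul_smul, mul_comm, ← mul_pow, ← ht]

theorem mres_eq_zero {s t c : R} (h : s ∣ t) (ht : t = c * s) {z : Loc s M}
    (hz : mres h M z = 0) : ∃ k : ℕ, c ^ k • z = 0 := by
  obtain ⟨i, m, hm⟩ := exists_toLoc z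
  have h1 : toLoc t M m = 0 := by rw [← mres_toLoc h, ← hm, map_smul, hz, smul_zero]
  obtain ⟨k, hk⟩ := toLoc_eq_zero.mp h1
  refine ⟨k, smul_cancel (dvd_refl s) (k + i) ?_⟩
  rw [smul_zero, pow_add, mul_smul, smul_comm (s ^ i) (c ^ k), hm, ← map_smul, ← map_smul, smul_smul,
    mul_comm, ← mul_pow, ← ht, hk, map_zero]

/-- functoriality -/
noncomputable def locMap (s : R) (f : M →ₗ[R] N) : Loc s M →ₗ[R] Loc s N :=
  IsLocalizedModule.map (Submonoid.powers s) (toLoc s M) (toLoc s N) f

theorem locMap_toLoc (s : R) (f : M →ₗ[R] N) (m : M) :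
    locMap s f (toLoc s M m) = toLoc s N (f m) := IsLocalizedModule.map_apply _ _ _ _ _

theorem locMap_injective (s : R) (f : M →ₗ[R] N) (hf : Function.Injective f) :
    Function.Injective (locMap s f) := IsLocalizedModule.map_injective _ _ _ _ hf

theorem locMap_surjective (s : R) (f : M →ₗ[R] N) (hf : Function.Surjective f) :
    Function.Surjective (locMap s f) := IsLocalizedModule.map_surjective _ _ _ _ hf

theorem locMap_exact {P : Type*} [AddCommGroup P] [Module R P] (s : R) (f : M →ₗ[R] N)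
    (g : N →ₗ[R] P) (hf : Function.Exact f g) :
    Function.Exact (locMap s f) (locMap s g) := IsLocalizedModule.map_exact _ _ _ _ _ _ hf

theorem locMap_mres {s t : R} (h : s ∣ t) (f : M →ₗ[R] N) (z : Loc s M) :
    locMap t f (mres h M z) = mres h N (locMap s f z) := by
  have : (locMap t f) ∘ₗ (mres h M) = (mres h N) ∘ₗ (locMap s f) := by
    apply IsLocalizedModule.ext (Submonoid.powers s) (toLoc s M) (isUnit_of_dvd h)
    ext m
    simp only [LinearMap.comp_apply]
    rw [mres_toLoc, locMap_toLoc, locMap_toLoc, mres_toLoc]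
  exact LinearMap.congr_fun this z

end Loc

end Pool.Agent.Helper14.FFull
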