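import Pool.Agent.Helper14.FFull.Frob

open Submodule IsLocalRing

namespace Pool.Agent.Helper14.FFull

universe u

section Quot

variable {R : Type u} [CommRing R] {A : Type u} [CommRing A] (f : R →+* A) {n : ℕ} (a : Fin n → R)

theorem pr_map (σ : Finset (Fin n)) : pr (fun j => f (a j)) σ = f (pr a σ) := by
  simp only [pr, map_prod]

/-- the ring map `R_{a_σ} → A_{f a_σ}` -/
noncomputable def piLoc (σ : Finset (Fin n)) :
    Localization (Submonoid.powers (pr a σ)) →+*
      Localization (Submonoid.powers (pr (fun j => f (a j)) σ)) :=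
  IsLocalization.map _ f (T := Submonoid.powers (pr (fun j => f (a j)) σ))
    (M := Submonoid.powers (pr a σ)) (by
      rintro _ ⟨k, rfl⟩
      exact ⟨k, by simp only [pr_map f a σ, map_pow]⟩)

theorem piLoc_toLoc (σ : Finset (Fin n)) (m : R) :
    piLoc f a σ (toLoc (pr a σ) R m) = toLoc (pr (fun j => f (a j)) σ) A (f m) := by
  exact IsLocalization.map_eq _ m

theorem piLoc_smul (σ : Finset (Fin n)) (r : R) (z : Localization (Submonoid.powers (pr a σ))) :
    piLoc f a σ (r • z) = f r • piLoc f a σ z := by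
  rw [Algebra.smul_def, map_mul, Algebra.smul_def]
  congr 1
  exact piLoc_toLoc f a σ r

theorem f_pr_pow (σ : Finset (Fin n)) (k : ℕ) :
    f (pr a σ ^ k) = pr (fun j => f (a j)) σ ^ k := by rw [map_pow, ← pr_map]

theorem piLoc_pow_smul (σ τ : Finset (Fin n)) (k : ℕ)
    (z : Localization (Submonoid.powers (pr a σ))) :
    piLoc f a σ (pr a τ ^ k • z) = pr (fun j => f (a j)) τ ^ k • piLoc f a σ z := by
  rw [piLoc_smul, f_pr_pow]

/-- the map on Čech cochains -/
noncomputable def piCC (z : CC a R) : CC (fun j => f (a j)) A := fun σ => piLoc f a σ (z σ)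

theorem piCC_add (z w : CC a R) : piCC f a (z + w) = piCC f a z + piCC f a w :=
  funext fun σ => map_add (piLoc f a σ) _ _

theorem piCC_sub (z w : CC a R) : piCC f a (z - w) = piCC f a z - piCC f a w :=
  funext fun σ => map_sub (piLoc f a σ) _ _

theorem piCC_zero : piCC f a 0 = 0 := funext fun σ => map_zero (piLoc f a σ)

theorem piCC_smul (r : R) (z : CC a R) : piCC f a (r • z) = f r • piCC f a z :=
  funext fun σ => piLoc_smul f a σ r (z σ)

theorem piLoc_mres {τ σ : Finset (Fin n)} (h : τ ⊆ σ) (z : Loc (pr a τ) R) :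
    piLoc f a σ (mres (pr_dvd a h) R z) = mres (pr_dvd (fun j => f (a j)) h) A (piLoc f a τ z) := by
  obtain ⟨k, m, hm⟩ := exists_toLoc (M := R) z
  apply smul_cancel (pr_dvd (fun j => f (a j)) h) k
  have h1 := piLoc_pow_smul f a σ τ k (mres (pr_dvd a h) R z)
  have h2 := piLoc_pow_smul f a τ τ k z
  have h3 := (mres (pr_dvd (fun j => f (a j)) h) A).map_smul (pr (fun j => f (a j)) τ ^ k)
    (piLoc f a τ z)
  refine h1.symm.trans (Eq.trans ?_ h3)
  rw [← h2, ← map_smul, hm, mres_toLoc, piLoc_toLoc, piLoc_toLoc, mres_toLoc]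

theorem piCC_DD (z : CC a R) : piCC f a (DD a R z) = DD (fun j => f (a j)) A (piCC f a z) := by
  funext σ
  have h0 : piCC f a (DD a R z) σ = piLoc f a σ (∑ j ∈ σ, (sgn R σ j •
    mres (pr_dvd a (σ.erase_subset j)) R (z (σ.erase j)) :
      Localization (Submonoid.powers (pr a σ)))) := rfl
  rw [h0, map_sum, DD_apply]
  refine Finset.sum_congr rfl fun j _ => ?_
  rw [piLoc_smul, piLoc_mres f a (σ.erase_subset j)]
  congr 1
  simp [sgn]

theorem piCC_frob (p : ℕ) [Fact p.Prime] [CharP R p] [CharP A p] (z : CC a R) :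
    piCC f a (frobCC a p z) = frobCC (fun j => f (a j)) p (piCC f a z) :=
  funext fun σ => map_pow (piLoc f a σ) _ _

theorem piCC_surjective (hf : Function.Surjective f) : Function.Surjective (piCC f a) := by
  have h1 : ∀ σ, Function.Surjective (piLoc f a σ) := by
    intro σ ζ
    obtain ⟨k, m', hm⟩ := exists_toLoc (M := A) ζ
    obtain ⟨m, rfl⟩ := hf m'
    obtain ⟨z, hz⟩ := exists_smul_eq (dvd_refl _) k (toLoc (pr a σ) R m)
    refine ⟨z, smul_cancel (dvd_refl _) k ?_⟩
    rw [hm]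
    refine (piLoc_pow_smul f a σ σ k z).symm.trans ?_
    rw [hz, piLoc_toLoc]
  intro ζ
  choose w hw using fun σ => h1 σ (ζ σ)
  exact ⟨w, funext hw⟩

theorem piCC_eq_zero {y : R} (hf : ∀ r, f r = 0 → y ∣ r) {z : CC a R} (hz : piCC f a z = 0) :
    ∃ w : CC a R, z = y • w := by
  have h1 : ∀ σ, ∀ z : Loc (pr a σ) R, piLoc f a σ z = 0 → ∃ w, z = y • w := by
    intro σ z hz
    obtain ⟨k, m, hm⟩ := exists_toLoc (M := R) z
    have h2 : toLoc (pr (fun j => f (a j)) σ) A (f m) = 0 := by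
      rw [← piLoc_toLoc, ← hm]
      have := piLoc_smul f a σ (pr a σ ^ k) z
      rw [this, hz, smul_zero]
    obtain ⟨l, hl⟩ := toLoc_eq_zero.mp h2
    rw [pr_map, ← map_pow, smul_eq_mul, ← map_mul] at hl
    obtain ⟨c, hc⟩ := hf _ hl
    obtain ⟨w, hw⟩ := exists_smul_eq (dvd_refl _) (l + k) (toLoc (pr a σ) R c)
    refine ⟨w, smul_cancel (dvd_refl _) (l + k) ?_⟩
    rw [smul_comm, hw, pow_add, mul_smul, hm, ← map_smul, ← map_smul, smul_eq_mul, smul_eq_mul, hc]
  choose w hw using fun σ => h1 σ (z σ) (congrFun hz σ)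
  exact ⟨w, funext hw⟩

theorem CC_smul_eq_zero {y : R} (hy : y ∈ nonZeroDivisors R) {z : CC a R} (hz : y • z = 0) :
    z = 0 := by
  have h1 : ∀ σ, ∀ z : Loc (pr a σ) R, y • z = 0 → z = 0 := by
    intro σ z hz
    obtain ⟨k, m, hm⟩ := exists_toLoc (M := R) z
    have h2 : toLoc (pr a σ) R (y * m) = 0 := by
      rw [← smul_eq_mul, map_smul, ← hm, smul_comm, hz, smul_zero]
    obtain ⟨l, hl⟩ := toLoc_eq_zero.mp h2
    have h3 : pr a σ ^ l * m = 0 := by
      have h4 : (pr a σ ^ l * m) * y = 0 := by rw [smul_eq_mul] at hl; rw [← hl]; ring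
      exact (mem_nonZeroDivisors_iff.mp hy).2 _ h4
    have h5 : toLoc (pr a σ) R m = 0 := toLoc_eq_zero.mpr ⟨l, h3⟩
    apply smul_cancel (dvd_refl _) k
    rw [hm, h5, smul_zero]
  exact funext fun σ => h1 σ (z σ) (congrFun hz σ)

end Quot

end Pool.Agent.Helper14.FFull
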