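import Pool.Agent.Helper14.FFull.Indep

open Submodule IsLocalRing

namespace Pool.Agent.Helper14.FFull

universe u

section Reindex

variable {A : Type u} [CommRing A] {n m : ℕ} (a : Fin n → A) (c : Fin m → A) (e : Fin n ↪o Fin m)
  (hce : ∀ i, c (e i) = a i)

/-- image of a finset under `e` -/
abbrev em (σ : Finset (Fin n)) : Finset (Fin m) := σ.map e.toEmbedding

include hce in
theorem pr_em (σ : Finset (Fin n)) : pr c (em e σ) = pr a σ := by
  simp only [pr, em, Finset.prod_map]
  exact Finset.prod_congr rfl fun i _ => hce i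

theorem sgn_em (σ : Finset (Fin n)) (j : Fin n) : sgn A (em e σ) (e j) = sgn A σ j := by
  unfold sgn
  congr 1
  have : (em e σ).filter (· < e j) = (σ.filter (· < j)).map e.toEmbedding := by
    ext l
    simp only [Finset.mem_filter, Finset.mem_map, em]
    constructor
    · rintro ⟨⟨i, hi, rfl⟩, h⟩
      exact ⟨i, ⟨hi, e.lt_iff_lt.mp h⟩, rfl⟩
    · rintro ⟨i, ⟨hi, h⟩, rfl⟩
      exact ⟨⟨i, hi, rfl⟩, e.lt_iff_lt.mpr h⟩
  rw [this, Finset.card_map]

/-- restriction of cochains along `e` -/
noncomputable def phi : CC c A →ₗ[A] CC a A where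
  toFun z σ := mres (dvd_of_eq (pr_em a c e hce σ)) A (z (em e σ))
  map_add' _ _ := funext fun _ => map_add _ _ _
  map_smul' r z := funext fun σ =>
    (mres (dvd_of_eq (pr_em a c e hce σ)) A).map_smul r (z (em e σ))

theorem phi_apply (z : CC c A) (σ : Finset (Fin n)) :
    phi a c e hce z σ = mres (dvd_of_eq (pr_em a c e hce σ)) A (z (em e σ)) := rfl

theorem phi_DD (z : CC c A) : phi a c e hce (DD c A z) = DD a A (phi a c e hce z) := by
  funext σ
  rw [phi_apply, DD_apply, DD_apply, map_sum, Finset.sum_map]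
  refine Finset.sum_congr rfl fun j hj => ?_
  have h1 : em e (σ.erase j) = (em e σ).erase (e j) := Finset.map_erase _ _ _
  rw [map_smul, phi_apply, mres_mres, mres_mres]
  congr 1
  · exact sgn_em e σ j
  · have h2 : ∀ (τ τ' : Finset (Fin m)) (t : A) (h : pr c τ ∣ t) (h' : pr c τ' ∣ t), τ = τ' →
        mres h A (z τ) = mres h' A (z τ') := by
      rintro τ τ' t h h' rfl; rfl
    exact h2 _ _ _ _ _ h1.symm

theorem phi_pow (p : ℕ) (z : CC c A) :
    phi a c e hce (powCC c p z) = powCC a p (phi a c e hce z) :=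
  funext fun σ => mres_pow (dvd_of_eq (pr_em a c e hce σ)) _ _

theorem mres_injective_of_dvd {s t : A} (h : s ∣ t) (h' : t ∣ s) {M : Type*} [AddCommGroup M]
    [Module A M] : Function.Injective (mres h M) := by
  intro z w hzw
  have := congrArg (mres h' M) hzw
  rwa [mres_mres, mres_mres, mres_self, mres_self] at this

theorem phi_apply_eq_zero (z : CC c A) (σ : Finset (Fin n)) :
    phi a c e hce z σ = 0 ↔ z (em e σ) = 0 := by
  rw [phi_apply]
  constructor
  · intro h
    apply mres_injective_of_dvd _ (dvd_of_eq (pr_em a c e hce σ).symm)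
    rw [h, map_zero]
  · intro h; rw [h, map_zero]

theorem phi_surjective : Function.Surjective (phi a c e hce) := by
  intro z
  have hdvd : ∀ τ : Finset (Fin m), pr a (τ.preimage e (e.injective.injOn)) ∣ pr c τ := by
    intro τ
    rw [← pr_em a c e hce]
    apply pr_dvd
    intro x hx
    simp only [em, Finset.mem_map, Finset.mem_preimage] at hx
    obtain ⟨i, hi, rfl⟩ := hx
    exact hi
  refine ⟨fun τ => mres (hdvd τ) A (z (τ.preimage e (e.injective.injOn))), ?_⟩
  funext σ
  rw [phi_apply, mres_mres]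
  have h1 : (em e σ).preimage e (e.injective.injOn) = σ := by
    ext i
    simp [em]
  have h2 : ∀ (τ τ' : Finset (Fin n)) (t : A) (h : pr a τ ∣ t) (h' : pr a τ' ∣ t), τ = τ' →
      mres h A (z τ) = mres h' A (z τ') := by
    rintro τ τ' t h h' rfl; rfl
  rw [h2 _ σ _ _ (dvd_refl _) h1, mres_self]

theorem subset_em_iff (P : Finset (Fin m) → Prop) :
    (∀ τ ⊆ em e Finset.univ, P τ) ↔ ∀ σ : Finset (Fin n), P (em e σ) := by
  constructor
  · intro h σ
    exact h _ (Finset.map_subset_map.mpr (Finset.subset_univ σ))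
  · intro h τ hτ
    obtain ⟨σ, _, rfl⟩ := Finset.subset_map_iff.mp hτ
    exact h σ

include hce in
theorem TF_reindex (p : ℕ) : TF c p (em e Finset.univ) ↔ TF a p Finset.univ := by
  rw [TF_univ_iff]
  unfold TF
  simp only [subset_em_iff]
  have h0 : ∀ w : CC c A, (∀ σ : Finset (Fin n), DD c A w (em e σ) = 0) ↔
      DD a A (phi a c e hce w) = 0 := by
    intro w
    rw [← phi_DD]
    constructor
    · intro h
      funext σ
      exact (phi_apply_eq_zero a c e hce _ σ).mpr (h σ)
    · intro h σ
      exact (phi_apply_eq_zero a c e hce _ σ).mp (congrFun h σ)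
  have h1 : ∀ z w : CC c A, (∀ σ : Finset (Fin n), z (em e σ) = w (em e σ)) ↔
      phi a c e hce z = phi a c e hce w := by
    intro z w
    rw [← sub_eq_zero, ← map_sub]
    constructor
    · intro h
      funext σ
      exact (phi_apply_eq_zero a c e hce _ σ).mpr (by rw [Pi.sub_apply, h σ, sub_self])
    · intro h σ
      have := (phi_apply_eq_zero a c e hce _ σ).mp (congrFun h σ)
      rw [Pi.sub_apply, sub_eq_zero] at this
      exact this
  constructor
  · intro h z hz
    obtain ⟨z, rfl⟩ := phi_surjective a c e hce z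
    obtain ⟨v, hv, u, hu⟩ := h z ((h0 z).mpr hz)
    refine ⟨phi a c e hce v, ?_, phi a c e hce u, ?_⟩
    · have : phi a c e hce v ∈ Submodule.map (phi a c e hce) (Submodule.span A
        {x : CC c A | ∃ w : CC c A, (∀ σ : Finset (Fin n), DD c A w (em e σ) = 0) ∧
          x = powCC c p w}) := ⟨v, hv, rfl⟩
      rw [Submodule.map_span] at this
      refine Submodule.span_mono ?_ this
      rintro _ ⟨_, ⟨w, hw, rfl⟩, rfl⟩
      exact ⟨phi a c e hce w, (h0 w).mp hw, phi_pow a c e hce p w⟩
    · rw [← phi_DD, ← map_add]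
      exact (h1 _ _).mp (fun σ => hu σ)
  · intro h z hz
    obtain ⟨v, hv, u, hu⟩ := h (phi a c e hce z) ((h0 z).mp hz)
    obtain ⟨u, rfl⟩ := phi_surjective a c e hce u
    have key : ∃ v' ∈ Submodule.span A
        {x : CC c A | ∃ w : CC c A, (∀ σ : Finset (Fin n), DD c A w (em e σ) = 0) ∧
          x = powCC c p w}, phi a c e hce v' = v := by
      clear hu
      induction hv using Submodule.span_induction with
      | mem x hx =>
        obtain ⟨w, hw, rfl⟩ := hx
        obtain ⟨w, rfl⟩ := phi_surjective a c e hce w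
        exact ⟨powCC c p w, Submodule.subset_span ⟨w, (h0 w).mpr hw, rfl⟩, phi_pow a c e hce p w⟩
      | zero => exact ⟨0, Submodule.zero_mem _, map_zero _⟩
      | add a b _ _ ha hb =>
        obtain ⟨a', ha', ha''⟩ := ha
        obtain ⟨b', hb', hb''⟩ := hb
        exact ⟨a' + b', Submodule.add_mem _ ha' hb', by rw [map_add, ha'', hb'']⟩
      | smul r b _ hb =>
        obtain ⟨b', hb', hb''⟩ := hb
        exact ⟨r • b', Submodule.smul_mem _ _ hb', by rw [map_smul, hb'']⟩
    obtain ⟨v', hv', rfl⟩ := key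
    refine ⟨v', hv', u, fun σ => ?_⟩
    exact (h1 z (v' + DD c A u)).mpr (by rw [hu, map_add, phi_DD]) σ

end Reindex

section TwoSeq

variable {A : Type u} [CommRing A] (p : ℕ) [Fact p.Prime] [CharP A p]

/-- The total fullness does not depend on the sequence, only on the radical of the ideal it
generates. -/
theorem TF_iff_of_radical_eq {n m : ℕ} (a : Fin n → A) (b : Fin m → A)
    (h : (Ideal.span (Set.range a)).radical = (Ideal.span (Set.range b)).radical) :
    TF a p Finset.univ ↔ TF b p Finset.univ := by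
  let c : Fin (n + m) → A := Fin.append a b
  have h1 : TF c p (em (Fin.castAddOrderEmb m) Finset.univ) ↔ TF a p Finset.univ :=
    TF_reindex a c (Fin.castAddOrderEmb m) (fun i => Fin.append_left a b i) p
  have h2 : TF c p (em (Fin.natAddOrderEmb n) Finset.univ) ↔ TF b p Finset.univ :=
    TF_reindex b c (Fin.natAddOrderEmb n) (fun i => Fin.append_right a b i) p
  have ha : ∀ i, a i ∈ (Ideal.span (Set.range a)).radical := fun i =>
    Ideal.le_radical (Ideal.subset_span ⟨i, rfl⟩)
  have hb : ∀ i, b i ∈ (Ideal.span (Set.range b)).radical := fun i =>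
    Ideal.le_radical (Ideal.subset_span ⟨i, rfl⟩)
  have hca : c '' (em (Fin.castAddOrderEmb m) Finset.univ : Finset (Fin (n + m))) = Set.range a := by
    ext x
    constructor
    · rintro ⟨j, hj, rfl⟩
      obtain ⟨i, _, rfl⟩ := Finset.mem_map.mp (Finset.mem_coe.mp hj)
      exact ⟨i, (Fin.append_left a b i).symm⟩
    · rintro ⟨i, rfl⟩
      exact ⟨Fin.castAdd m i, Finset.mem_coe.mpr (Finset.mem_map.mpr ⟨i, Finset.mem_univ _, rfl⟩),
        Fin.append_left a b i⟩
  have hcb : c '' (em (Fin.natAddOrderEmb n) Finset.univ : Finset (Fin (n + m))) = Set.range b := by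
    ext x
    constructor
    · rintro ⟨j, hj, rfl⟩
      obtain ⟨i, _, rfl⟩ := Finset.mem_map.mp (Finset.mem_coe.mp hj)
      exact ⟨i, (Fin.append_right a b i).symm⟩
    · rintro ⟨i, rfl⟩
      exact ⟨Fin.natAdd n i, Finset.mem_coe.mpr (Finset.mem_map.mpr ⟨i, Finset.mem_univ _, rfl⟩),
        Fin.append_right a b i⟩
  have hc : ∀ j, c j ∈ (Ideal.span (Set.range a)).radical := by
    intro j
    induction j using Fin.addCases with
    | left i => rw [show c (Fin.castAdd m i) = a i from Fin.append_left a b i]; exact ha i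
    | right i => rw [show c (Fin.natAdd n i) = b i from Fin.append_right a b i, h]; exact hb i
  rw [← h1, ← h2, ← TF_subset_iff c p (Finset.subset_univ _) (fun j _ => by rw [hca]; exact hc j),
    ← TF_subset_iff c p (Finset.subset_univ (em (Fin.natAddOrderEmb n) Finset.univ))
      (fun j _ => by rw [hcb, ← h]; exact hc j)]

end TwoSeq

end Pool.Agent.Helper14.FFull
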