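import Pool.Agent.Helper14.FFull.Claims

open Submodule IsLocalRing

namespace Pool.Agent.Helper14.FFull

universe u

section Stable

variable {R : Type u} [CommRing R] [IsNoetherianRing R] [IsLocalRing R]

theorem isArtinian_coh {n : ℕ} (a : Fin n → R)
    (ha : (Ideal.span (Set.range a)).radical = maximalIdeal R) : IsArtinian R (Coh (DD a R)) := by
  have h1 := isArtinian_coh_quotient a ha ⊥
  let e : R →ₗ[R] R ⧸ (⊥ : Ideal R) := Submodule.mkQ ⊥
  have he : Function.Surjective e := Submodule.mkQ_surjective _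
  have he' : Function.Injective e := by
    rw [injective_iff_map_eq_zero]
    intro r hr
    exact (Submodule.mem_bot R).mp ((Submodule.Quotient.mk_eq_zero _).mp hr)
  apply isArtinian_of_injective (cohMap (CCmap a e) (CCmap_DD a e))
  rw [injective_iff_map_eq_zero]
  intro η hη
  obtain ⟨⟨z, hz⟩, rfl⟩ := Submodule.Quotient.mk_surjective _ η
  change (Submodule.Quotient.mk (⟨CCmap a e z, _⟩ : LinearMap.ker (DD a (R ⧸ (⊥ : Ideal R)))) :
    Coh (DD a (R ⧸ (⊥ : Ideal R)))) = 0 at hη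
  rw [coh_mk_eq_zero] at hη ⊢
  obtain ⟨u, hu⟩ := hη
  obtain ⟨u', rfl⟩ := CCmap_surjective a e he u
  refine ⟨u', CCmap_injective a e he' ?_⟩
  rw [CCmap_DD, hu]

theorem exists_pow_add_mem_nonZeroDivisors {x : R} (hx : x ∈ nonZeroDivisors R) :
    ∃ N : ℕ, ∀ δ ∈ maximalIdeal R ^ N, x + δ ∈ nonZeroDivisors R := by
  have hfin := associatedPrimes.finite R R
  have hunion := biUnion_associatedPrimes_eq_compl_nonZeroDivisors R
  have h1 : ∀ P ∈ associatedPrimes R R, x ∉ P := by
    intro P hP hxP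
    have : x ∈ ⋃ p ∈ associatedPrimes R R, (p : Set R) := Set.mem_biUnion hP hxP
    rw [hunion] at this
    exact this hx
  choose! N hN using fun P (hP : P ∈ associatedPrimes R R) =>
    exists_pow_forall_add_notMem P (h1 P hP)
  refine ⟨hfin.toFinset.sup N, fun δ hδ => ?_⟩
  by_contra hcon
  have : x + δ ∈ ⋃ p ∈ associatedPrimes R R, (p : Set R) := by
    rw [hunion]; exact hcon
  rw [Set.mem_iUnion₂] at this
  obtain ⟨P, hP, hmem⟩ := this
  exact hN P hP δ (Ideal.pow_le_pow_right (Finset.le_sup (hfin.mem_toFinset.mpr hP)) hδ) hmem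

variable (p : ℕ) [Fact p.Prime] [CharP R p]

theorem stable_TF {n : ℕ} (a : Fin n → R)
    (ha : (Ideal.span (Set.range a)).radical = maximalIdeal R) {x : R}
    (hxm : x ∈ maximalIdeal R) (hx : x ∈ nonZeroDivisors R)
    (hTF : TF (fun j => Ideal.Quotient.mk (Ideal.span {x}) (a j)) p Finset.univ) :
    ∃ N : ℕ, ∀ δ ∈ maximalIdeal R ^ N,
      TF (fun j => Ideal.Quotient.mk (Ideal.span {x + δ}) (a j)) p Finset.univ := by
  have hart := isArtinian_coh a ha
  have hkx : ∀ y r : R, Ideal.Quotient.mk (Ideal.span {y}) r = 0 ↔ y ∣ r := fun y r => by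
    rw [Ideal.Quotient.eq_zero_iff_mem, Ideal.mem_span_singleton]
  have h1 := kerFull_of_TF (Ideal.Quotient.mk (Ideal.span {x})) a p Ideal.Quotient.mk_surjective hx
    (hkx x) hTF
  obtain ⟨N1, hN1⟩ := stable_kerFull p (Fact.out : p.Prime) (frobCoh a p) (frobCoh_smul a p) hxm h1
  obtain ⟨N2, hN2⟩ := exists_pow_add_mem_nonZeroDivisors hx
  refine ⟨max N1 N2, fun δ hδ => ?_⟩
  obtain ⟨hdiv, hfull⟩ := hN1 δ (Ideal.pow_le_pow_right (le_max_left _ _) hδ)
  exact TF_of_kerFull (Ideal.Quotient.mk (Ideal.span {x + δ})) a p Ideal.Quotient.mk_surjective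
    (hN2 δ (Ideal.pow_le_pow_right (le_max_right _ _) hδ)) (hkx _) hdiv hfull

end Stable

end Pool.Agent.Helper14.FFull
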